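import Pool.Agent.C4H6.Defs

/-!
MP_039b14_co, corank four: a family in the fibre of the switch at `Z` is determined by its members
through the triples of `Z`.
-/

set_option autoImplicit false

namespace Pool.Agent.C4H6

open Finset Pool.Agent.R4P

variable {n : ℕ}

private theorem sub_of_mem3 {t : ℕ} {G : Finset (Finset (Fin n))} {Z : Finset (Fin n)}
    {F F' : Finset (Finset (Fin n))} (hF : F ∈ fib t G Z) (hF' : F' ∈ fib t G Z)
    (h : ∀ T ∈ Z.powersetCard 3, mem3 T F = mem3 T F') : F ⊆ F' := by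
  classical
  unfold fib at hF hF'
  rw [mem_filter] at hF hF'
  obtain ⟨-, hg, hs⟩ := hF
  obtain ⟨-, -, hs'⟩ := hF'
  intro R hR
  rcases Nat.lt_or_ge 2 (R ∩ Z).card with h3 | h2
  · obtain ⟨T, hT, hTc⟩ := exists_subset_card_eq (Nat.succ_le_of_lt h3)
    have hTZ : T ∈ Z.powersetCard 3 :=
      mem_powersetCard.2 ⟨hT.trans inter_subset_right, hTc⟩
    have h4 : R ∈ mem3 T F := by
      unfold mem3
      exact mem_filter.2 ⟨hR, hT.trans inter_subset_left⟩
    rw [h T hTZ] at h4
    unfold mem3 at h4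
    exact (mem_filter.1 h4).1
  · have h4 : R ∈ G := by
      rw [← hs]
      unfold sw
      exact mem_insert_of_mem (mem_filter.2 ⟨hR, h2⟩)
    rw [← hs'] at h4
    unfold sw at h4
    rcases mem_insert.1 h4 with h5 | h5
    · exfalso
      rw [h5, inter_self, hg.1] at h2
      omega
    · exact (mem_filter.1 h5).1

theorem fib_card_le {t : ℕ} {G : Finset (Finset (Fin n))} {Z : Finset (Fin n)}
    (S : Finset (Finset (Finset (Fin n)))) (hS : S ⊆ fib t G Z) :
    S.card ≤ ∏ T ∈ Z.powersetCard 3, (S.image (mem3 T)).card := by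
  classical
  rw [← card_pi]
  refine card_le_card_of_injOn (fun F => fun T (_ : T ∈ Z.powersetCard 3) => mem3 T F) ?_ ?_
  · intro F hF
    rw [mem_coe, mem_pi]
    intro T _
    exact mem_image_of_mem _ hF
  · intro F hF F' hF' h
    have h1 : ∀ T ∈ Z.powersetCard 3, mem3 T F = mem3 T F' := fun T hT =>
      congrFun (congrFun h T) hT
    exact Subset.antisymm (sub_of_mem3 (hS hF) (hS hF') h1)
      (sub_of_mem3 (hS hF') (hS hF) (fun T hT => (h1 T hT).symm))

end Pool.Agent.C4H6
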