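import Pool.Agent.C4H6.Defs

/-!
MP_039b14_co, corank four: the number of members over a triple of the switched set, in terms of one
family of the fibre.
-/

set_option autoImplicit false

namespace Pool.Agent.C4H6

open Finset Pool.Agent.R4P

variable {n : ℕ}

namespace ImC

theorem fv_fam {t : ℕ} {F : Finset (Finset (Fin n))} (hF : F ∈ FV n t) : IsFam F := by
  classical
  unfold FV fams at hF
  simp only [mem_filter, mem_univ, true_and] at hF
  exact hF.1

theorem fv_card {t : ℕ} {F : Finset (Finset (Fin n))} (hF : F ∈ FV n t) {R : Finset (Fin n)}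
    (hR : R ∈ F) : R.card = 4 ∨ R.card = 5 := by
  classical
  unfold FV at hF
  simp only [mem_filter] at hF
  exact hF.2.1 R hR

theorem mem_fib {t : ℕ} {G : Finset (Finset (Fin n))} {Z : Finset (Fin n)}
    {F : Finset (Finset (Fin n))} (h : F ∈ fib t G Z) : F ∈ FV n t ∧ Good F Z ∧ sw F Z = G := by
  classical
  unfold fib at h
  simp only [mem_filter] at h
  exact ⟨h.1, h.2.1, h.2.2⟩

/-- a member which meets `Z` in at least three elements has four elements -/
theorem card_four {t : ℕ} {F : Finset (Finset (Fin n))} {Z R : Finset (Fin n)}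
    (hF : F ∈ FV n t) (hG : Good F Z) (hR : R ∈ F) (h3 : 3 ≤ (R ∩ Z).card) : R.card = 4 := by
  rcases fv_card hF hR with h | h
  · exact h
  · have := hG.2 R hR h
    omega

/-- the members over a triple of `Z` -/
theorem mem3_cases {t : ℕ} {F : Finset (Finset (Fin n))} {Z T : Finset (Fin n)}
    (hF : F ∈ FV n t) (hG : Good F Z) (hT : T ∈ Z.powersetCard 3) :
    mem3 T F = ∅ ∨ ∃ s, s ∉ T ∧ insert s T ∈ F ∧ mem3 T F = {insert s T} := by
  classical
  rcases (mem3 T F).eq_empty_or_nonempty with h | ⟨R, hR⟩
  · exact Or.inl h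
  · right
    rw [mem_powersetCard] at hT
    have hR' := hR
    unfold mem3 at hR'
    rw [mem_filter] at hR'
    have hTR : T ⊆ R ∩ Z := subset_inter hR'.2 hT.1
    have h3 : 3 ≤ (R ∩ Z).card := by
      have := card_le_card hTR
      omega
    have h4 := card_four hF hG hR'.1 h3
    have hd : (R \ T).card = 1 := by
      rw [card_sdiff_of_subset hR'.2, h4, hT.2]
    obtain ⟨s, hs⟩ := card_eq_one.mp hd
    have hs1 : s ∈ R \ T := by rw [hs]; exact mem_singleton_self s
    rw [mem_sdiff] at hs1
    have hRs : R = insert s T := by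
      have h1 : R \ T ∪ T = R := sdiff_union_of_subset hR'.2
      rw [hs] at h1
      rw [← h1, insert_eq]
    refine ⟨s, hs1.2, hRs ▸ hR'.1, ?_⟩
    ext K
    constructor
    · intro hK
      have hK' := hK
      unfold mem3 at hK'
      rw [mem_filter] at hK'
      rw [mem_singleton, ← hRs]
      by_contra hne
      have := (fv_fam hF).2 K hK'.1 R hR'.1 hne
      have h2 : T ⊆ K ∩ R := subset_inter hK'.2 hR'.2
      have := card_le_card h2
      omega
    · intro hK
      rw [mem_singleton] at hK
      rw [hK, ← hRs]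
      exact hR

/-- the removed members -/
def rem (F : Finset (Finset (Fin n))) (Z : Finset (Fin n)) : Finset (Finset (Fin n)) :=
  F.filter (fun R => 3 ≤ (R ∩ Z).card)

theorem rem_card {F : Finset (Finset (Fin n))} {Z : Finset (Fin n)} (hF : IsFam F)
    (hZ : Z.card = 5) : (rem F Z).card ≤ 10 := by
  classical
  have hex : ∀ R ∈ rem F Z, ∃ X, X ⊆ R ∩ Z ∧ X.card = 3 := by
    intro R hR
    unfold rem at hR
    rw [mem_filter] at hR
    exact exists_subset_card_eq hR.2
  choose! f hf using hex
  have h10 : (Z.powersetCard 3).card = 10 := by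
    rw [card_powersetCard, hZ]
    decide
  rw [← h10]
  apply card_le_card_of_injOn f
  · intro R hR
    have h := hf R (by simpa using hR)
    rw [mem_coe, mem_powersetCard]
    exact ⟨h.1.trans inter_subset_right, h.2⟩
  · intro R hR K hK hRK
    have hR0 : R ∈ rem F Z := by simpa using hR
    have hK0 : K ∈ rem F Z := by simpa using hK
    have h1 := hf R hR0
    have h2 := hf K hK0
    by_contra hne
    unfold rem at hR0 hK0
    rw [mem_filter] at hR0 hK0
    have h3 := hF.2 R hR0.1 K hK0.1 hne
    have h4 : f R ⊆ R ∩ K := by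
      apply subset_inter
      · exact h1.1.trans inter_subset_left
      · rw [hRK]
        exact h2.1.trans inter_subset_left
    have h5 := card_le_card h4
    omega

/-- the elements off `Z` of the removed members -/
theorem rem_off {t : ℕ} {F : Finset (Finset (Fin n))} {Z : Finset (Fin n)} (hF : F ∈ FV n t)
    (hG : Good F Z) : ((rem F Z).biUnion (fun R => R \ Z)).card ≤ 10 := by
  classical
  calc ((rem F Z).biUnion (fun R => R \ Z)).card ≤ ∑ R ∈ rem F Z, (R \ Z).card := card_biUnion_le
    _ ≤ ∑ R ∈ rem F Z, 1 := by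
        apply sum_le_sum
        intro R hR
        unfold rem at hR
        rw [mem_filter] at hR
        have h4 := card_four hF hG hR.1 hR.2
        have := card_sdiff_add_card_inter R Z
        omega
    _ = (rem F Z).card := by simp
    _ ≤ 10 := rem_card (fv_fam hF) hG.1

/-- the elements off `Z` which can occur over `T` -/
theorem off_mem {t : ℕ} {G : Finset (Finset (Fin n))} {Z T : Finset (Fin n)}
    {F F' : Finset (Finset (Fin n))} (hF : F ∈ fib t G Z) (hF' : F' ∈ fib t G Z)
    (hT : T ∈ Z.powersetCard 3) {s : Fin n} (hs : s ∉ Z) (hm : insert s T ∈ F') :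
    s ∈ CF F T ∪ (rem F Z).biUnion (fun R => R \ Z) := by
  classical
  rw [mem_powersetCard] at hT
  obtain ⟨h1, h2, h3⟩ := mem_fib hF
  obtain ⟨h1', h2', h3'⟩ := mem_fib hF'
  have hsT : s ∉ T := fun h => hs (hT.1 h)
  rw [mem_union, mem_biUnion]
  by_cases hc : ∀ a ∈ T, ¬ Cov F (insert s (T.erase a))
  · left
    unfold CF
    rw [mem_filter]
    exact ⟨mem_univ s, hsT, hc⟩
  · right
    push Not at hc
    obtain ⟨a, ha, H, hH, hX⟩ := hc
    have hsH : s ∈ H := hX (mem_insert_self s _)
    refine ⟨H, ?_, by rw [mem_sdiff]; exact ⟨hsH, hs⟩⟩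
    unfold rem
    rw [mem_filter]
    refine ⟨hH, ?_⟩
    by_contra hlt
    have hle : (H ∩ Z).card ≤ 2 := by omega
    have hHG : H ∈ sw F Z := by
      unfold sw
      rw [mem_insert, mem_filter]
      exact Or.inr ⟨hH, hle⟩
    rw [h3, ← h3'] at hHG
    unfold sw at hHG
    rw [mem_insert, mem_filter] at hHG
    rcases hHG with hHZ | hHF
    · exact hs (hHZ ▸ hsH)
    · have hXc : (insert s (T.erase a)).card = 3 := by
        rw [card_insert_of_notMem (fun h => hsT (mem_of_mem_erase h)), card_erase_of_mem ha, hT.2]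
      have hne : H ≠ insert s T := by
        intro he
        have : T ⊆ H ∩ Z := subset_inter (he ▸ subset_insert s T) hT.1
        have := card_le_card this
        omega
      have h5 := (fv_fam h1').2 H hHF.1 _ hm hne
      have h6 : insert s (T.erase a) ⊆ H ∩ insert s T :=
        subset_inter hX (insert_subset_insert s (erase_subset a T))
      have := card_le_card h6
      omega

end ImC

open ImC in
theorem im_le_CF {t : ℕ} {G : Finset (Finset (Fin n))} {Z : Finset (Fin n)}
    {S : Finset (Finset (Finset (Fin n)))} (hS : S ⊆ fib t G Z) {T : Finset (Fin n)}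
    (hT : T ∈ Z.powersetCard 3) {F : Finset (Finset (Fin n))} (hF : F ∈ S) :
    (S.image (mem3 T)).card ≤ (CF F T).card + 13 := by
  classical
  obtain ⟨h1, h2, h3⟩ := mem_fib (hS hF)
  have hT' := mem_powersetCard.mp hT
  have hsub : S.image (mem3 T) ⊆ insert ∅
      (((Z \ T) ∪ (CF F T ∪ (rem F Z).biUnion (fun R => R \ Z))).image
        (fun s => ({insert s T} : Finset (Finset (Fin n))))) := by
    intro m hm
    rw [mem_image] at hm
    obtain ⟨F', hF', rfl⟩ := hm
    obtain ⟨h1', h2', h3'⟩ := mem_fib (hS hF')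
    rw [mem_insert]
    rcases mem3_cases h1' h2' hT with h | ⟨s, hs, hsF, h⟩
    · exact Or.inl h
    · right
      rw [mem_image]
      refine ⟨s, ?_, h.symm⟩
      rw [mem_union]
      by_cases hz : s ∈ Z
      · left
        rw [mem_sdiff]
        exact ⟨hz, hs⟩
      · right
        exact off_mem (hS hF) (hS hF') hT hz hsF
  have hZT : (Z \ T).card = 2 := by
    rw [card_sdiff_of_subset hT'.1, h2.1, hT'.2]
  calc (S.image (mem3 T)).card ≤ _ := card_le_card hsub
    _ ≤ (((Z \ T) ∪ (CF F T ∪ (rem F Z).biUnion (fun R => R \ Z))).image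
        (fun s => ({insert s T} : Finset (Finset (Fin n))))).card + 1 := card_insert_le _ _
    _ ≤ ((Z \ T) ∪ (CF F T ∪ (rem F Z).biUnion (fun R => R \ Z))).card + 1 := by
        have := card_image_le (s := (Z \ T) ∪ (CF F T ∪ (rem F Z).biUnion (fun R => R \ Z)))
          (f := fun s => ({insert s T} : Finset (Finset (Fin n))))
        omega
    _ ≤ (Z \ T).card + ((CF F T).card + ((rem F Z).biUnion (fun R => R \ Z)).card) + 1 := by
        have a1 := card_union_le (Z \ T) (CF F T ∪ (rem F Z).biUnion (fun R => R \ Z))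
        have a2 := card_union_le (CF F T) ((rem F Z).biUnion (fun R => R \ Z))
        omega
    _ ≤ (CF F T).card + 13 := by
        have := rem_off h1 h2
        omega

end Pool.Agent.C4H6
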