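import Pool.Agent.C4H6.CntZ

/-!
MP_039b14_co, corank four: at least half of the sets with five elements are usable for a family
with few triples through an element off a triple uncovered.
-/

set_option autoImplicit false

namespace Pool.Agent.C4H6

open Finset Pool.Agent.R4P

variable {n : ℕ}

open Classical in
/-- at least half of the sets with five elements are usable -/
theorem okZ_ge {t K : ℕ} (hK : 1 ≤ K) (hn : 20 * t * n ^ 2 ≤ n.choose 5)
    {F : Finset (Finset (Fin n))} (hF : F ∈ lowF n t K) :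
    n.choose 5 ≤ 2 * (okZ K F).card := by
  classical
  obtain ⟨hFV, hsum⟩ := mem_filter.1 hF
  have hfvs : (fvs n).card = n.choose 5 := by
    simp only [fvs, card_powersetCard, card_univ, Fintype.card_fin]
  have hBs : (trs n).filter (fun T => 40 * K < (CF F T).card) ⊆ trs n := filter_subset _ _
  generalize hB : (trs n).filter (fun T => 40 * K < (CF F T).card) = B at hBs
  have h1 : B.card * (40 * K) ≤ K * n.choose 3 := by
    calc B.card * (40 * K) = ∑ _T ∈ B, 40 * K := by rw [sum_const, smul_eq_mul]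
      _ ≤ ∑ T ∈ B, (CF F T).card :=
          sum_le_sum (fun T hT => by rw [← hB] at hT; exact (mem_filter.1 hT).2.le)
      _ ≤ ∑ T ∈ trs n, (CF F T).card :=
          sum_le_sum_of_subset_of_nonneg hBs (fun _ _ _ => Nat.zero_le _)
      _ ≤ K * n.choose 3 := hsum
  have h2 : 40 * B.card ≤ n.choose 3 := by
    have h3 : K * (40 * B.card) ≤ K * n.choose 3 := by
      calc K * (40 * B.card) = B.card * (40 * K) := by ring
        _ ≤ K * n.choose 3 := h1
    exact Nat.le_of_mul_le_mul_left h3 hK
  have h4 : 40 * (B.card * (n - 3).choose 2) ≤ 10 * n.choose 5 := by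
    calc 40 * (B.card * (n - 3).choose 2) = 40 * B.card * (n - 3).choose 2 := by ring
      _ ≤ n.choose 3 * (n - 3).choose 2 := Nat.mul_le_mul_right _ h2
      _ = 10 * n.choose 5 := choose53 n
  have hcov : fvs n ⊆ okZ K F ∪ ((fvs n).filter (fun Z => ¬ Good F Z) ∪
      (fvs n).filter (fun Z => ∃ T ∈ B, T ⊆ Z)) := by
    intro Z hZ
    by_cases hg : Good F Z
    · by_cases hT : ∃ T ∈ B, T ⊆ Z
      · exact mem_union_right _ (mem_union_right _ (mem_filter.2 ⟨hZ, hT⟩))
      · refine mem_union_left _ (mem_filter.2 ⟨hZ, hg, fun T hT' => ?_⟩)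
        by_contra hc
        refine hT ⟨T, ?_, (mem_powersetCard.1 hT').1⟩
        rw [← hB]
        exact mem_filter.2 ⟨mem_powersetCard.2 ⟨subset_univ _, (mem_powersetCard.1 hT').2⟩,
          not_le.1 hc⟩
    · exact mem_union_right _ (mem_union_left _ (mem_filter.2 ⟨hZ, hg⟩))
  have h5 := card_le_card hcov
  rw [hfvs] at h5
  have h6 := card_union_le (okZ K F) ((fvs n).filter (fun Z => ¬ Good F Z) ∪
      (fvs n).filter (fun Z => ∃ T ∈ B, T ⊆ Z))
  have h7 := card_union_le ((fvs n).filter (fun Z => ¬ Good F Z))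
      ((fvs n).filter (fun Z => ∃ T ∈ B, T ⊆ Z))
  have h8 := notgood_le hFV
  have h9 := over_le B hBs
  have h10 : 4 * (5 * t * n ^ 2) ≤ n.choose 5 := by
    calc 4 * (5 * t * n ^ 2) = 20 * t * n ^ 2 := by ring
      _ ≤ n.choose 5 := hn
  omega

end Pool.Agent.C4H6
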