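import Pool.Agent.C4H6.Sw
import Pool.Agent.C4H6.Fib
import Pool.Agent.C4H6.ImC
import Pool.Agent.C4H6.OkZ

/-! MP_039b14_co, corank four: the families with few uncovered triples (double count). -/

set_option autoImplicit false

namespace Pool.Agent.C4H6

open Finset Pool.Agent.R4P

variable {n : ℕ}

open Classical in
/-- the pairs `(G, Z)`, `Z` a member of `G` with five elements -/
theorem cs_count (n s : ℕ) : ∑ Z ∈ fvs n, ((FV n s).filter (fun G => Z ∈ G)).card =
    s * (FV n s).card := by
  have h1 : ∑ Z ∈ fvs n, ((FV n s).filter (fun G => Z ∈ G)).card =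
      ∑ G ∈ FV n s, ((fvs n).filter (fun Z => Z ∈ G)).card := by
    simp only [Finset.card_filter]
    rw [Finset.sum_comm]
  rw [h1]
  have h2 : ∀ G ∈ FV n s, ((fvs n).filter (fun Z => Z ∈ G)).card = s := by
    intro G hG
    rw [← (Finset.mem_filter.1 hG).2.2]
    congr 1
    ext Z
    simp only [fvs, Finset.mem_filter, Finset.mem_powersetCard, Finset.subset_univ, true_and]
    exact and_comm
  rw [Finset.sum_congr rfl h2, Finset.sum_const, smul_eq_mul, mul_comm]

/- ===== M7  CaseA.lean (uses M1, M2, M4, M6) ===== -/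
theorem caseA {t K : ℕ} (hn6 : 6 ≤ n) (hK : 1 ≤ K) (hn : 20 * t * n ^ 2 ≤ n.choose 5) :
    (lowF n t K).card * n.choose 5 ≤
      2 * (t + 1) * (40 * K + 13) ^ 10 * (FV n (t + 1)).card := by
  classical
  have h1 : (lowF n t K).card * n.choose 5 ≤ 2 * ∑ F ∈ lowF n t K, (okZ K F).card := by
    rw [Finset.mul_sum, ← smul_eq_mul, ← Finset.sum_const]
    exact Finset.sum_le_sum fun F hF => okZ_ge hK hn hF
  have h2 : ∑ F ∈ lowF n t K, (okZ K F).card =
      ∑ Z ∈ fvs n, ((lowF n t K).filter (fun F => Z ∈ okZ K F)).card := by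
    have e : ∀ F ∈ lowF n t K, (okZ K F).card = ((fvs n).filter (fun Z => Z ∈ okZ K F)).card := by
      intro F _
      congr 1
      ext Z
      simp only [okZ, Finset.mem_filter]
      tauto
    rw [Finset.sum_congr rfl e]
    simp only [Finset.card_filter]
    rw [Finset.sum_comm]
  have h3 : ∀ Z ∈ fvs n, ((lowF n t K).filter (fun F => Z ∈ okZ K F)).card ≤
      (40 * K + 13) ^ 10 * ((FV n (t + 1)).filter (fun G => Z ∈ G)).card := by
    intro Z hZ
    have hZ5 : Z.card = 5 := (Finset.mem_powersetCard.1 hZ).2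
    refine Finset.card_le_mul_card_image_of_maps_to (f := fun F => sw F Z) ?_ _ ?_
    · intro F hF
      rw [Finset.mem_filter] at hF
      have hFV : F ∈ FV n t := (Finset.mem_filter.1 hF.1).1
      have hg : Good F Z := ((Finset.mem_filter.1 hF.2).2).1
      exact Finset.mem_filter.2 ⟨sw_mem hn6 hFV hg, self_mem_sw F Z⟩
    · intro G _
      set S := ((lowF n t K).filter (fun F => Z ∈ okZ K F)).filter (fun F => sw F Z = G) with hS
      rcases S.eq_empty_or_nonempty with h0 | ⟨F, hF⟩
      · rw [h0]; simp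
      · have hSf : S ⊆ fib t G Z := by
          intro F' hF'
          rw [hS, Finset.mem_filter, Finset.mem_filter] at hF'
          exact Finset.mem_filter.2 ⟨(Finset.mem_filter.1 hF'.1.1).1,
            ((Finset.mem_filter.1 hF'.1.2).2).1, hF'.2⟩
        refine (fib_card_le S hSf).trans ?_
        have hFo : F ∈ lowF n t K ∧ Z ∈ okZ K F := by
          rw [hS, Finset.mem_filter, Finset.mem_filter] at hF
          exact hF.1
        have hFz := ((Finset.mem_filter.1 hFo.2).2).2
        calc ∏ T ∈ Z.powersetCard 3, (S.image (mem3 T)).card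
            ≤ ∏ T ∈ Z.powersetCard 3, (40 * K + 13) := by
              refine Finset.prod_le_prod' fun T hT => ?_
              exact (im_le_CF hSf hT hF).trans (Nat.add_le_add_right (hFz T hT) 13)
          _ = (40 * K + 13) ^ 10 := by
              rw [Finset.prod_const, Finset.card_powersetCard, hZ5]
              rfl
  calc (lowF n t K).card * n.choose 5 ≤ 2 * ∑ F ∈ lowF n t K, (okZ K F).card := h1
    _ = 2 * ∑ Z ∈ fvs n, ((lowF n t K).filter (fun F => Z ∈ okZ K F)).card := by rw [h2]
    _ ≤ 2 * ∑ Z ∈ fvs n, (40 * K + 13) ^ 10 * ((FV n (t + 1)).filter (fun G => Z ∈ G)).card :=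
        Nat.mul_le_mul_left _ (Finset.sum_le_sum h3)
    _ = 2 * ((40 * K + 13) ^ 10 * ((t + 1) * (FV n (t + 1)).card)) := by
        rw [← Finset.mul_sum, cs_count]
    _ = _ := by ring

end Pool.Agent.C4H6
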