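import Pool.Agent.C4H6.Defs

/-! MP_039b14_co, corank four: the images of the fibres at one triple, easy bounds. -/

set_option autoImplicit false

namespace Pool.Agent.C4H6

open Finset Pool.Agent.R4P

variable {n : ℕ}

private theorem mem3_cases {t : ℕ} {G : Finset (Finset (Fin n))} {Z : Finset (Fin n)}
    {F : Finset (Finset (Fin n))} (hF : F ∈ fib t G Z) {T : Finset (Fin n)}
    (hT : T ∈ Z.powersetCard 3) : mem3 T F = ∅ ∨ ∃ s : Fin n, mem3 T F = {insert s T} := by
  classical
  rw [mem_powersetCard] at hT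
  obtain ⟨hTZ, hT3⟩ := hT
  have h1 : F ∈ FV n t ∧ Good F Z ∧ sw F Z = G := by
    simpa [fib] using hF
  obtain ⟨hFV, hG, -⟩ := h1
  have h2 : F ∈ fams n ∧ (∀ R ∈ F, R.card = 4 ∨ R.card = 5) ∧
      (F.filter (fun R => R.card = 5)).card = t := by
    simpa [FV] using hFV
  obtain ⟨hfam, h45, -⟩ := h2
  have h3 : IsFam F := by simpa [fams] using hfam
  rcases (mem3 T F).eq_empty_or_nonempty with h | ⟨R, hR⟩
  · exact Or.inl h
  · right
    have hR' : R ∈ F ∧ T ⊆ R := by simpa [mem3] using hR
    have hR4 : R.card = 4 := by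
      rcases h45 R hR'.1 with h | h
      · exact h
      · exfalso
        have h4 := hG.2 R hR'.1 h
        have h5 : T ⊆ R ∩ Z := subset_inter hR'.2 hTZ
        have h6 := card_le_card h5
        omega
    have h7 : (R \ T).card = 1 := by
      rw [card_sdiff_of_subset hR'.2]
      omega
    obtain ⟨s, hs⟩ := card_eq_one.1 h7
    have h8 : insert s T = R := by
      rw [insert_eq, ← hs, sdiff_union_of_subset hR'.2]
    refine ⟨s, ?_⟩
    rw [h8, eq_singleton_iff_unique_mem]
    refine ⟨hR, fun R2 hR2 => ?_⟩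
    have hR2' : R2 ∈ F ∧ T ⊆ R2 := by simpa [mem3] using hR2
    by_contra hne
    have h9 := h3.2 R2 hR2'.1 R hR'.1 hne
    have h10 : T ⊆ R2 ∩ R := subset_inter hR2'.2 hR'.2
    have h11 := card_le_card h10
    omega

theorem im_le_all {t : ℕ} {G : Finset (Finset (Fin n))} {Z : Finset (Fin n)}
    {S : Finset (Finset (Finset (Fin n)))} (hS : S ⊆ fib t G Z) {T : Finset (Fin n)}
    (hT : T ∈ Z.powersetCard 3) : (S.image (mem3 T)).card ≤ n + 1 := by
  classical
  have h1 : S.image (mem3 T) ⊆
      insert ∅ ((univ : Finset (Fin n)).image (fun s => ({insert s T} : Finset (Finset (Fin n))))) := by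
    intro X hX
    obtain ⟨F, hF, rfl⟩ := mem_image.1 hX
    rcases mem3_cases (hS hF) hT with h | ⟨s, h⟩
    · rw [h]; exact mem_insert_self _ _
    · rw [h]
      exact mem_insert_of_mem (mem_image_of_mem _ (mem_univ s))
  refine (card_le_card h1).trans ((card_insert_le _ _).trans ?_)
  have h2 : ((univ : Finset (Fin n)).image
      (fun s => ({insert s T} : Finset (Finset (Fin n))))).card ≤ n := by
    refine card_image_le.trans ?_
    simp
  omega

theorem im_le_one {S : Finset (Finset (Finset (Fin n)))} {T : Finset (Fin n)}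
    (h : ∀ F ∈ S, ¬ Cov F T) : (S.image (mem3 T)).card ≤ 1 := by
  classical
  have h1 : S.image (mem3 T) ⊆ {∅} := by
    intro X hX
    obtain ⟨F, hF, rfl⟩ := mem_image.1 hX
    rw [mem_singleton, mem3, filter_eq_empty_iff]
    intro R hR hTR
    exact h F hF ⟨R, hR, hTR⟩
  exact (card_le_card h1).trans (by simp)

end Pool.Agent.C4H6
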