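import Pool.Agent.C4H6.Fib
import Pool.Agent.C4H6.ImA
import Pool.Agent.C4H6.ImC

/-!
MP_039b14_co, corank four: the weighted bound of the fibres.
-/

set_option autoImplicit false

namespace Pool.Agent.C4H6

open Finset Pool.Agent.R4P

variable {n : ℕ}

namespace FB

/-- a triple of `Z` which meets `T` in two elements is an exchange of `T` -/
theorem exch {T T' : Finset (Fin n)} (h3 : T.card = 3) (h3' : T'.card = 3)
    (h2 : (T' ∩ T).card = 2) : ∃ s ∈ T', s ∉ T ∧ ∃ a ∈ T, T' = insert s (T.erase a) := by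
  have e1 : (T' \ T).card = 1 := by
    have := card_sdiff_add_card_inter T' T
    omega
  have e2 : (T \ T').card = 1 := by
    have := card_sdiff_add_card_inter T T'
    rw [inter_comm] at this
    omega
  obtain ⟨s, hs⟩ := card_eq_one.1 e1
  obtain ⟨a, ha⟩ := card_eq_one.1 e2
  have hs1 : ∀ x, (x ∈ T' ∧ x ∉ T) ↔ x = s := by
    intro x
    rw [← mem_sdiff, hs, mem_singleton]
  have ha1 : ∀ x, (x ∈ T ∧ x ∉ T') ↔ x = a := by
    intro x
    rw [← mem_sdiff, ha, mem_singleton]
  refine ⟨s, ((hs1 s).2 rfl).1, ((hs1 s).2 rfl).2, a, ((ha1 a).2 rfl).1, ?_⟩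
  ext x
  rw [mem_insert, mem_erase]
  have h4 := hs1 x
  have h5 := ha1 x
  tauto

/-- three triples of `Z` meet `T` in at most one element -/
theorem card_one {Z T : Finset (Fin n)} (hZ : Z.card = 5) (hT : T ∈ Z.powersetCard 3) :
    ((Z.powersetCard 3).filter (fun T' => (T' ∩ T).card ≤ 1)).card ≤ 3 := by
  obtain ⟨hTZ, hT3⟩ := mem_powersetCard.1 hT
  have h3 : (T.powersetCard 1).card = 3 := by rw [card_powersetCard, hT3]; rfl
  refine le_trans ?_ h3.le
  have hZT : (Z \ T).card = 2 := by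
    have := card_sdiff_add_card_eq_card hTZ
    omega
  have key : ∀ T' ∈ (Z.powersetCard 3).filter (fun T' => (T' ∩ T).card ≤ 1),
      (T' ∩ T).card = 1 ∧ T' \ T = Z \ T := by
    intro T' h
    obtain ⟨h1, h2⟩ := mem_filter.1 h
    obtain ⟨h4, h5⟩ := mem_powersetCard.1 h1
    have h6 : T' \ T ⊆ Z \ T := sdiff_subset_sdiff h4 le_rfl
    have h7 := card_le_card h6
    have h8 := card_sdiff_add_card_inter T' T
    refine ⟨by omega, eq_of_subset_of_card_le h6 (by omega)⟩
  refine card_le_card_of_injOn (fun T' => T' ∩ T) ?_ ?_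
  · intro T' h
    rw [mem_coe] at h
    rw [mem_coe, mem_powersetCard]
    exact ⟨inter_subset_right, (key T' h).1⟩
  · intro T' h T'' h' he
    rw [mem_coe] at h h'
    have e1 := (key T' h).2
    have e2 := (key T'' h').2
    have he' : T' ∩ T = T'' ∩ T := he
    rw [← sdiff_union_inter T' T, ← sdiff_union_inter T'' T, e1, e2, he']

end FB

open FB

open Classical in
theorem fibB_le {t : ℕ} {G : Finset (Finset (Fin n))} {Z T : Finset (Fin n)}
    (hZ : Z.card = 5) (hT : T ∈ Z.powersetCard 3) :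
    ∑ F ∈ (fib t G Z).filter (fun F => Z \ T ⊆ CF F T), 1 / (((CF F T).card : ℝ) + 13) ≤
      ((n : ℝ) + 1) ^ 3 := by
  obtain ⟨hTZ, hT3⟩ := mem_powersetCard.1 hT
  obtain ⟨S, hS⟩ : ∃ S, S = (fib t G Z).filter (fun F => Z \ T ⊆ CF F T) := ⟨_, rfl⟩
  rw [← hS]
  have hSf : S ⊆ fib t G Z := by rw [hS]; exact filter_subset _ _
  have hSC : ∀ F ∈ S, Z \ T ⊆ CF F T := by
    intro F hF
    rw [hS] at hF
    exact (mem_filter.1 hF).2
  -- the bound of the number of families
  have hkey : ∀ F ∈ S, S.card ≤ ((CF F T).card + 13) * (n + 1) ^ 3 := by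
    intro F hF
    refine (fib_card_le S hSf).trans ?_
    rw [← mul_prod_erase _ _ hT]
    refine Nat.mul_le_mul (im_le_CF hSf hT hF) ?_
    have h1 : ∏ T' ∈ (Z.powersetCard 3).erase T, (S.image (mem3 T')).card ≤
        ∏ T' ∈ (Z.powersetCard 3).erase T, (if (T' ∩ T).card ≤ 1 then n + 1 else 1) := by
      refine prod_le_prod' (fun T' hT' => ?_)
      obtain ⟨hne, hT'1⟩ := mem_erase.1 hT'
      obtain ⟨hT'Z, hT'3⟩ := mem_powersetCard.1 hT'1
      by_cases h : (T' ∩ T).card ≤ 1
      · rw [if_pos h]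
        exact im_le_all hSf hT'1
      · rw [if_neg h]
        apply im_le_one
        intro F' hF'
        have h2 : (T' ∩ T).card = 2 := by
          have h4 : (T' ∩ T).card ≤ 3 := (card_le_card inter_subset_left).trans hT'3.le
          have h5 : (T' ∩ T).card ≠ 3 := by
            intro h6
            have h7 : T' ∩ T = T' := eq_of_subset_of_card_le inter_subset_left (by omega)
            have h8 : T' ∩ T = T := eq_of_subset_of_card_le inter_subset_right (by omega)
            exact hne (h7.symm.trans h8)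
          omega
        obtain ⟨s, hs, hsT, a, ha, rfl⟩ := exch hT3 hT'3 h2
        have h9 : s ∈ CF F' T := hSC F' hF' (mem_sdiff.2 ⟨hT'Z hs, hsT⟩)
        rw [CF, mem_filter] at h9
        exact h9.2.2 a ha
    refine h1.trans ?_
    rw [prod_ite, prod_const_one, mul_one, prod_const]
    refine Nat.pow_le_pow_right (by omega) ?_
    refine le_trans (card_le_card ?_) (card_one hZ hT)
    exact filter_subset_filter _ (erase_subset _ _)
  -- the sum
  rcases S.eq_empty_or_nonempty with h0 | h0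
  · rw [h0, sum_empty]
    positivity
  · have hc : (0 : ℝ) < S.card := by exact_mod_cast card_pos.2 h0
    have h1 : ∀ F ∈ S, 1 / (((CF F T).card : ℝ) + 13) ≤ ((n : ℝ) + 1) ^ 3 / S.card := by
      intro F hF
      rw [div_le_div_iff₀ (by positivity) hc, one_mul]
      have h2 := hkey F hF
      have h3 : (S.card : ℝ) ≤ (((CF F T).card : ℝ) + 13) * ((n : ℝ) + 1) ^ 3 := by exact_mod_cast h2
      linarith
    refine (sum_le_sum h1).trans ?_
    rw [sum_const, nsmul_eq_mul, mul_div_cancel₀ _ hc.ne']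

end Pool.Agent.C4H6
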