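import Pool.Agent.C4H6.CntZ

/-!
MP_039b14_co, corank four: module M8, the weighted number of the pairs (T, Z) used for the
families in `highF`.
-/

set_option autoImplicit false

namespace Pool.Agent.C4H6

open Finset Pool.Agent.R4P

variable {n : ℕ}

open Classical in
private theorem fibre_card (F : Finset (Finset (Fin n))) {T : Finset (Fin n)} (hT : T ∈ trs n) :
    (CF F T).card.choose 2 ≤
      ((fvs n).filter (fun Z => T ⊆ Z ∧ Z \ T ⊆ CF F T)).card := by
  rw [← Finset.card_powersetCard]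
  have hT3 : T.card = 3 := (mem_powersetCard.1 hT).2
  have hdis : ∀ W ∈ (CF F T).powersetCard 2, Disjoint T W := by
    intro W hW
    rw [Finset.disjoint_left]
    intro a ha haW
    have h1 := (mem_powersetCard.1 hW).1 haW
    rw [CF, mem_filter] at h1
    exact h1.2.1 ha
  apply Finset.card_le_card_of_injOn (fun W => T ∪ W)
  · intro W hW
    have hW' : W ∈ (CF F T).powersetCard 2 := hW
    have hd := hdis W hW'
    have h2 := mem_powersetCard.1 hW'
    simp only [coe_filter, Set.mem_ofPred_eq]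
    refine ⟨?_, subset_union_left, ?_⟩
    · rw [fvs, mem_powersetCard]
      refine ⟨subset_univ _, ?_⟩
      rw [card_union_of_disjoint hd, hT3, h2.2]
    · rw [union_sdiff_left]
      exact sdiff_subset.trans h2.1
  · intro W hW W' hW' h
    have hd := hdis W hW
    have hd' := hdis W' hW'
    have h1 : (T ∪ W) \ T = (T ∪ W') \ T := by
      simp only at h
      rw [h]
    rwa [union_sdiff_cancel_left hd, union_sdiff_cancel_left hd'] at h1

private theorem weight_le (c : ℕ) :
    ((c : ℝ) - 14) / 2 ≤ (c.choose 2 : ℝ) * (1 / ((c : ℝ) + 13)) := by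
  rw [Nat.cast_choose_two, mul_one_div, le_div_iff₀ (by positivity)]
  nlinarith

open Classical in
theorem PB_ge {t K : ℕ} {F : Finset (Finset (Fin n))} (hF : F ∈ highF n t K) :
    ((K : ℝ) - 14) * (n.choose 3 : ℝ) / 2 - 4 * t * (n : ℝ) ^ 2 ≤
      ∑ p ∈ PB F, 1 / (((CF F p.1).card : ℝ) + 13) := by
  rw [highF, mem_filter] at hF
  obtain ⟨hFV, hK⟩ := hF
  have hcard : ((trs n).card : ℝ) = n.choose 3 := by
    rw [trs, card_powersetCard, card_univ, Fintype.card_fin]
  set w : Finset (Fin n) → ℝ := fun T => 1 / (((CF F T).card : ℝ) + 13) with hw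
  have hw0 : ∀ T, 0 ≤ w T := fun T => by simp only [hw]; positivity
  have hw1 : ∀ T, w T ≤ 1 / 13 := fun T => by
    simp only [hw]
    apply one_div_le_one_div_of_le (by norm_num)
    have : (0 : ℝ) ≤ ((CF F T).card : ℝ) := by positivity
    linarith
  -- the main term
  have hmain : ((K : ℝ) - 14) * (n.choose 3 : ℝ) / 2 ≤
      ∑ T ∈ trs n, ∑ Z ∈ fvs n, if T ⊆ Z ∧ Z \ T ⊆ CF F T then w T else 0 := by
    have h1 : ∀ T ∈ trs n, (((CF F T).card : ℝ) - 14) / 2 ≤
        ∑ Z ∈ fvs n, if T ⊆ Z ∧ Z \ T ⊆ CF F T then w T else 0 := by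
      intro T hT
      rw [← sum_filter, sum_const, nsmul_eq_mul]
      refine (weight_le _).trans ?_
      apply mul_le_mul_of_nonneg_right _ (hw0 T)
      exact_mod_cast fibre_card F hT
    refine le_trans ?_ (sum_le_sum h1)
    rw [← sum_div, sum_sub_distrib, sum_const, nsmul_eq_mul, hcard]
    have h2 : (K : ℝ) * n.choose 3 ≤ ∑ T ∈ trs n, ((CF F T).card : ℝ) := by
      exact_mod_cast hK.le
    linarith
  -- the bad pairs
  have hbad : ∑ T ∈ trs n, ∑ Z ∈ fvs n, (if T ⊆ Z ∧ ¬ Good F Z then (1 / 13 : ℝ) else 0) ≤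
      4 * t * (n : ℝ) ^ 2 := by
    rw [sum_comm]
    have h1 : ∀ Z ∈ fvs n, ∑ T ∈ trs n, (if T ⊆ Z ∧ ¬ Good F Z then (1 / 13 : ℝ) else 0) ≤
        if ¬ Good F Z then (10 / 13 : ℝ) else 0 := by
      intro Z hZ
      by_cases hg : Good F Z
      · simp [hg]
      · simp only [hg, not_false_eq_true, and_true, if_true]
        rw [← sum_filter, sum_const, nsmul_eq_mul]
        have h2 : ((trs n).filter (fun T => T ⊆ Z)).card ≤ 10 := by
          have h3 : (trs n).filter (fun T => T ⊆ Z) ⊆ Z.powersetCard 3 := by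
            intro T hT
            rw [mem_filter, trs, mem_powersetCard] at hT
            rw [mem_powersetCard]
            exact ⟨hT.2, hT.1.2⟩
          refine (card_le_card h3).trans ?_
          rw [card_powersetCard]
          rw [fvs, mem_powersetCard] at hZ
          rw [hZ.2]
          decide
        have h3 : (((trs n).filter (fun T => T ⊆ Z)).card : ℝ) ≤ 10 := by exact_mod_cast h2
        linarith
    refine (sum_le_sum h1).trans ?_
    rw [← sum_filter, sum_const, nsmul_eq_mul]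
    have h4 : (((fvs n).filter (fun Z => ¬ Good F Z)).card : ℝ) ≤ 5 * t * n ^ 2 := by
      exact_mod_cast notgood_le hFV
    have h5 : (0 : ℝ) ≤ t * (n : ℝ) ^ 2 := by positivity
    nlinarith
  -- the sum over `PB`
  have hPB : ∑ p ∈ PB F, 1 / (((CF F p.1).card : ℝ) + 13) =
      ∑ T ∈ trs n, ∑ Z ∈ fvs n,
        if T ⊆ Z ∧ Z \ T ⊆ CF F T ∧ Good F Z then w T else 0 := by
    rw [PB, sum_filter, sum_product]
  rw [hPB]
  have hfin : ∑ T ∈ trs n, ∑ Z ∈ fvs n, (if T ⊆ Z ∧ Z \ T ⊆ CF F T then w T else 0) -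
      ∑ T ∈ trs n, ∑ Z ∈ fvs n, (if T ⊆ Z ∧ ¬ Good F Z then (1 / 13 : ℝ) else 0) ≤
      ∑ T ∈ trs n, ∑ Z ∈ fvs n,
        if T ⊆ Z ∧ Z \ T ⊆ CF F T ∧ Good F Z then w T else 0 := by
    rw [← sum_sub_distrib]
    apply sum_le_sum
    intro T _
    rw [← sum_sub_distrib]
    apply sum_le_sum
    intro Z _
    by_cases h1 : T ⊆ Z <;> by_cases h2 : Z \ T ⊆ CF F T <;> by_cases h3 : Good F Z <;>
      simp [h1, h2, h3]
    · have := hw1 T
      norm_num at this ⊢
      linarith
  linarith

end Pool.Agent.C4H6
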