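import Pool.Agent.C4H6.CaseA
import Pool.Agent.C4H6.PBge
import Pool.Agent.C4H6.FibB

/-! MP_039b14_co, corank four: the families with many uncovered triples (weighted double count). -/

set_option autoImplicit false

namespace Pool.Agent.C4H6

open Finset Pool.Agent.R4P

variable {n : ℕ}

/- ===== M10  CaseB.lean (uses M1, M8, M9) ===== -/
theorem caseB {t K : ℕ} (hn6 : 6 ≤ n) :
    ((highF n t K).card : ℝ) * (((K : ℝ) - 14) * (n.choose 3 : ℝ) / 2 - 4 * t * (n : ℝ) ^ 2) ≤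
      10 * (t + 1) * ((n : ℝ) + 1) ^ 3 * ((FV n (t + 1)).card : ℝ) := by
  classical
  have hw0 : ∀ (F : Finset (Finset (Fin n))) (T : Finset (Fin n)),
      0 ≤ 1 / (((CF F T).card : ℝ) + 13) := fun F T => by positivity
  have h1 : ((highF n t K).card : ℝ) *
      (((K : ℝ) - 14) * (n.choose 3 : ℝ) / 2 - 4 * t * (n : ℝ) ^ 2) ≤
      ∑ F ∈ FV n t, ∑ p ∈ PB F, 1 / (((CF F p.1).card : ℝ) + 13) := by
    rw [← nsmul_eq_mul, ← Finset.sum_const]
    refine (Finset.sum_le_sum fun F hF => PB_ge hF).trans ?_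
    refine Finset.sum_le_sum_of_subset_of_nonneg (Finset.filter_subset _ _) fun F _ _ => ?_
    exact Finset.sum_nonneg fun p _ => hw0 F p.1
  have h2 : ∑ F ∈ FV n t, ∑ p ∈ PB F, 1 / (((CF F p.1).card : ℝ) + 13) =
      ∑ p ∈ (fvs n).sigma (fun Z => Z.powersetCard 3),
        ∑ F ∈ (FV n t).filter (fun F => (p.2, p.1) ∈ PB F), 1 / (((CF F p.2).card : ℝ) + 13) := by
    rw [Finset.sum_sigma', Finset.sum_sigma']
    refine Finset.sum_bij' (fun x _ => ⟨⟨x.2.2, x.2.1⟩, x.1⟩) (fun y _ => ⟨y.2, (y.1.2, y.1.1)⟩)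
      ?_ ?_ ?_ ?_ ?_
    · rintro ⟨F, T, Z⟩ hx
      simp only [Finset.mem_sigma, Finset.mem_filter] at hx ⊢
      refine ⟨?_, hx.1, hx.2⟩
      have h := hx.2
      simp only [PB, Finset.mem_filter, Finset.mem_product, trs, fvs,
        Finset.mem_powersetCard] at h
      refine ⟨Finset.mem_powersetCard.2 h.1.2, Finset.mem_powersetCard.2 ⟨h.2.1, h.1.1.2⟩⟩
    · rintro ⟨⟨Z, T⟩, F⟩ hy
      simp only [Finset.mem_sigma, Finset.mem_filter] at hy ⊢
      exact hy.2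
    · rintro ⟨F, T, Z⟩ _; rfl
    · rintro ⟨⟨Z, T⟩, F⟩ _; rfl
    · rintro ⟨F, T, Z⟩ _; rfl
  have h3 : ∀ p ∈ (fvs n).sigma (fun Z => Z.powersetCard 3),
      ∑ F ∈ (FV n t).filter (fun F => (p.2, p.1) ∈ PB F), 1 / (((CF F p.2).card : ℝ) + 13) ≤
      (((FV n (t + 1)).filter (fun G => p.1 ∈ G)).card : ℝ) * ((n : ℝ) + 1) ^ 3 := by
    rintro ⟨Z, T⟩ hp
    rw [Finset.mem_sigma] at hp
    obtain ⟨hZ, hT⟩ := hp
    simp only at hZ hT ⊢
    have hZ5 : Z.card = 5 := (Finset.mem_powersetCard.1 hZ).2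
    have hmaps : ∀ F ∈ (FV n t).filter (fun F => (T, Z) ∈ PB F),
        sw F Z ∈ (FV n (t + 1)).filter (fun G => Z ∈ G) := by
      intro F hF
      rw [Finset.mem_filter] at hF
      have hg : Good F Z := ((Finset.mem_filter.1 hF.2).2).2.2
      exact Finset.mem_filter.2 ⟨sw_mem hn6 hF.1 hg, self_mem_sw F Z⟩
    rw [← Finset.sum_fiberwise_of_maps_to hmaps, ← nsmul_eq_mul, ← Finset.sum_const]
    refine Finset.sum_le_sum fun G _ => ?_
    refine le_trans ?_ (fibB_le (t := t) (G := G) hZ5 hT)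
    refine Finset.sum_le_sum_of_subset_of_nonneg ?_ fun F _ _ => hw0 F T
    intro F hF
    rw [Finset.mem_filter, Finset.mem_filter] at hF
    have h := (Finset.mem_filter.1 hF.1.2).2
    exact Finset.mem_filter.2 ⟨Finset.mem_filter.2 ⟨hF.1.1, h.2.2, hF.2⟩, h.2.1⟩
  have h4 : ∑ p ∈ (fvs n).sigma (fun Z => Z.powersetCard 3),
      (((FV n (t + 1)).filter (fun G => p.1 ∈ G)).card : ℝ) * ((n : ℝ) + 1) ^ 3 =
      10 * (t + 1) * ((n : ℝ) + 1) ^ 3 * ((FV n (t + 1)).card : ℝ) := by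
    rw [Finset.sum_sigma]
    have e : ∀ Z ∈ fvs n, ∑ T ∈ Z.powersetCard 3,
        (((FV n (t + 1)).filter (fun G => Z ∈ G)).card : ℝ) * ((n : ℝ) + 1) ^ 3 =
        (10 * ((n : ℝ) + 1) ^ 3) * (((FV n (t + 1)).filter (fun G => Z ∈ G)).card : ℝ) := by
      intro Z hZ
      have hZ5 : Z.card = 5 := (Finset.mem_powersetCard.1 hZ).2
      rw [Finset.sum_const, Finset.card_powersetCard, hZ5, nsmul_eq_mul]
      norm_num [Nat.choose]
      ring
    simp only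
    rw [Finset.sum_congr rfl e, ← Finset.mul_sum, ← Nat.cast_sum, cs_count]
    push_cast
    ring
  calc _ ≤ _ := h1
    _ = _ := h2
    _ ≤ _ := Finset.sum_le_sum h3
    _ = _ := h4

end Pool.Agent.C4H6
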