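import Pool.Agent.C4H6.Defs

/-!
MP_039b14_co, corank four: the nonbases of the dual.
-/

set_option autoImplicit false

namespace Pool.Agent.C4H6

open Finset Pool.Agent.R4P H38Pav

variable {n : ℕ}

/-- a matroid which is not paving has an `M(G)`-minor (as in `Pool.Agent.H83Pav.Iff`) -/
private theorem hasMG_of_np (M : Matroid (Fin n)) (h : ¬ Paving M) : HasMG M := by
  unfold Paving at h
  push Not at h
  obtain ⟨C, hC, hlt⟩ := h
  obtain ⟨a, haC⟩ := hC.nonempty
  have hI : M.Indep (C \ {a}) := hC.sdiff_singleton_indep haC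
  obtain ⟨B, hB, hIB⟩ := hI.exists_isBase_superset
  have haB : a ∉ B := by
    intro h
    apply hC.dep.not_indep
    refine hB.indep.subset ?_
    intro x hx
    by_cases hxa : x = a
    · rw [hxa]; exact h
    · exact hIB ⟨hx, hxa⟩
  -- two more elements of the base
  have hcard : 2 ≤ (B \ (C \ {a})).ncard := by
    have h1 : B.encard = M.eRank := hB.encard_eq_eRank
    have h2 : (C \ {a}).encard + 1 = C.encard := Set.encard_sdiff_singleton_add_one haC
    have h3 : (B \ (C \ {a})).encard + (C \ {a}).encard = B.encard :=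
      Set.encard_sdiff_add_encard_of_subset hIB
    rw [← h1, ← h3, ← h2] at hlt
    have f1 : (C \ {a}).encard = ((C \ {a}).ncard : ℕ∞) := (Set.toFinite _).cast_ncard_eq.symm
    have f2 : (B \ (C \ {a})).encard = ((B \ (C \ {a})).ncard : ℕ∞) :=
      (Set.toFinite _).cast_ncard_eq.symm
    rw [f1, f2] at hlt
    have : (C \ {a}).ncard + 1 < (B \ (C \ {a})).ncard + (C \ {a}).ncard := by
      exact_mod_cast hlt
    omega
  obtain ⟨b, hb, c, hc, hbc⟩ := (Set.one_lt_ncard (Set.toFinite _)).mp
    (show 1 < (B \ (C \ {a})).ncard by omega)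
  have haE : a ∈ M.E := hC.subset_ground haC
  have hbE : b ∈ M.E := hB.subset_ground hb.1
  have hcE : c ∈ M.E := hB.subset_ground hc.1
  set J : Set (Fin n) := B \ {b, c} with hJ
  have hJi : M.Indep J := hB.indep.subset Set.sdiff_subset
  have hab : a ≠ b := by rintro rfl; exact haB hb.1
  have hac : a ≠ c := by rintro rfl; exact haB hc.1
  have hCJ : C ⊆ insert a J := by
    intro x hx
    by_cases hxa : x = a
    · rw [hxa]; exact Set.mem_insert _ _
    · right
      have hxI : x ∈ C \ {a} := ⟨hx, hxa⟩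
      refine ⟨hIB hxI, ?_⟩
      rintro (h | h)
      · rw [h] at hxI; exact hb.2 hxI
      · rw [Set.mem_singleton_iff.mp h] at hxI; exact hc.2 hxI
  have hsubE : ({a, b, c} : Set (Fin n)) ⊆ (M.contract J).E := by
    rw [Matroid.contract_ground]
    intro x hx
    simp only [Set.mem_insert_iff, Set.mem_singleton_iff] at hx
    rcases hx with rfl | rfl | rfl
    · exact ⟨haE, fun h => haB h.1⟩
    · exact ⟨hbE, fun h => h.2 (Or.inl rfl)⟩
    · exact ⟨hcE, fun h => h.2 (Or.inr rfl)⟩
  let N : Matroid (Fin n) := (M.contract J).restrict {a, b, c}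
  have hNindep : ∀ X, N.Indep X ↔ X ⊆ ({b, c} : Set (Fin n)) := by
    intro X
    show ((M.contract J).restrict {a, b, c}).Indep X ↔ _
    rw [Matroid.restrict_indep_iff, hJi.contract_indep_iff]
    constructor
    · rintro ⟨⟨h1, h2⟩, h3⟩
      have haX : a ∉ X := by
        intro h
        apply hC.dep.not_indep
        refine h2.subset (hCJ.trans ?_)
        rintro x (hx | hx)
        · left; rw [hx]; exact h
        · right; exact hx
      intro x hx
      rcases h3 hx with h | h
      · rw [h] at hx; exact absurd hx haX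
      · exact h
    · intro h
      have hXB : X ∪ J ⊆ B := by
        rintro x (hx | hx)
        · rcases h hx with h1 | h1
          · rw [h1]; exact hb.1
          · rw [Set.mem_singleton_iff.mp h1]; exact hc.1
        · exact hx.1
      refine ⟨⟨?_, hB.indep.subset hXB⟩, h.trans (Set.subset_insert _ _)⟩
      rw [Set.disjoint_left]
      intro x hx hxJ
      exact hxJ.2 (h hx)
  refine ⟨N, ?_, a, b, c, hab, hac, hbc, rfl, ?_⟩
  · show (M.contract J).restrict {a, b, c} ≤m M
    rw [← Matroid.delete_compl hsubE]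
    exact Matroid.contract_delete_isMinor _ _ _
  · intro B'
    constructor
    · intro hB'
      have h1 := (hNindep B').mp hB'.indep
      exact hB'.eq_of_subset_indep ((hNindep _).mpr subset_rfl) h1
    · rintro rfl
      obtain ⟨B'', hB'', hs⟩ := ((hNindep {b, c}).mpr subset_rfl).exists_isBase_superset
      have h1 := (hNindep B'').mp hB''.indep
      rw [Set.Subset.antisymm hs h1]
      exact hB''

open Classical in
/-- the sets of four elements which are not bases -/
noncomputable def nbF (M : Matroid (Fin n)) : Finset (Finset (Fin n)) :=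
  univ.filter (fun X => X.card = 4 ∧ ¬ M.IsBase (X : Set (Fin n)))

theorem mem_nbF {M : Matroid (Fin n)} {X : Finset (Fin n)} :
    X ∈ nbF M ↔ X.card = 4 ∧ ¬ M.IsBase (X : Set (Fin n)) := by
  classical
  simp [nbF]

private theorem indep_of_small {M : Matroid (Fin n)} (hE : M.E = Set.univ) (hr : M.eRank = 4)
    (hp : Paving M) {T : Finset (Fin n)} (hT : T.card ≤ 3) : M.Indep (T : Set (Fin n)) := by
  by_contra h
  have hd : M.Dep (T : Set (Fin n)) := ⟨h, by rw [hE]; exact Set.subset_univ _⟩
  obtain ⟨C, hCT, hC⟩ := hd.exists_isCircuit_subset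
  have h1 := hp C hC
  have h2 : C.encard ≤ (T : Set (Fin n)).encard := Set.encard_le_encard hCT
  rw [Set.encard_coe_eq_coe_finsetCard] at h2
  have h3 : (4 : ℕ∞) ≤ (T.card : ℕ∞) := by rw [← hr]; exact h1.trans h2
  have h4 : 4 ≤ T.card := by exact_mod_cast h3
  omega

private theorem isBase_of_indep {M : Matroid (Fin n)} (hr : M.eRank = 4)
    {H : Finset (Fin n)} (hH : H.card = 4) (hi : M.Indep (H : Set (Fin n))) :
    M.IsBase (H : Set (Fin n)) := by
  obtain ⟨B, hB, hHB⟩ := hi.exists_isBase_superset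
  have h1 : B.encard = 4 := by rw [hB.encard_eq_eRank, hr]
  have h2 : (H : Set (Fin n)).encard = 4 := by
    rw [Set.encard_coe_eq_coe_finsetCard, hH]
    rfl
  have h3 : (H : Set (Fin n)) = B :=
    (Set.toFinite (H : Set (Fin n))).eq_of_subset_of_encard_le hHB (by rw [h1, h2])
  rw [h3]
  exact hB

private theorem sub_closure {M : Matroid (Fin n)} (hE : M.E = Set.univ) (hr : M.eRank = 4)
    {T H : Finset (Fin n)} (hT : T.card = 3) (hTH : T ⊆ H) (hH : H ∈ nbF M)
    (hi : M.Indep (T : Set (Fin n))) : (H : Set (Fin n)) ⊆ M.closure (T : Set (Fin n)) := by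
  classical
  rw [mem_nbF] at hH
  intro x hx
  rw [hi.mem_closure_iff]
  by_cases hxT : x ∈ T
  · exact Or.inr (by exact_mod_cast hxT)
  · left
    have hxH : x ∈ H := by exact_mod_cast hx
    have h1 : insert x T ⊆ H := insert_subset hxH hTH
    have h2 : (insert x T).card = 4 := by rw [card_insert_of_notMem hxT, hT]
    have h3 : insert x T = H := eq_of_subset_of_card_le h1 (by rw [h2, hH.1])
    have h4 : insert x (T : Set (Fin n)) = (H : Set (Fin n)) := by
      rw [← coe_insert, h3]
    rw [h4]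
    exact ⟨fun h => hH.2 (isBase_of_indep hr hH.1 h), by rw [hE]; exact Set.subset_univ _⟩

private theorem inter_le {M : Matroid (Fin n)} (hE : M.E = Set.univ) (hr : M.eRank = 4)
    (hp : Paving M) (hp' : Paving M✶) {H K : Finset (Fin n)} (hH : H ∈ nbF M) (hK : K ∈ nbF M)
    (hne : H ≠ K) : (H ∩ K).card ≤ 2 := by
  classical
  by_contra hcon
  have hH4 := (mem_nbF.1 hH).1
  have hK4 := (mem_nbF.1 hK).1
  have h3 : (H ∩ K).card = 3 := by
    have h1 : (H ∩ K).card ≤ H.card := card_le_card inter_subset_left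
    have h2 : (H ∩ K).card ≠ 4 := by
      intro h
      have e1 : H ∩ K = H := eq_of_subset_of_card_le inter_subset_left (by rw [h, hH4])
      have e2 : H ∩ K = K := eq_of_subset_of_card_le inter_subset_right (by rw [h, hK4])
      exact hne (e1.symm.trans e2)
    omega
  have h5 : (H ∪ K).card = 5 := by
    have := card_union_add_card_inter H K
    omega
  have hi := indep_of_small hE hr hp (T := H ∩ K) (by omega)
  have hsub : ((H ∪ K : Finset (Fin n)) : Set (Fin n)) ⊆
      M.closure ((H ∩ K : Finset (Fin n)) : Set (Fin n)) := by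
    rw [coe_union]
    exact Set.union_subset (sub_closure hE hr h3 inter_subset_left hH hi)
      (sub_closure hE hr h3 inter_subset_right hK hi)
  have hrk : M.eRk ((H ∪ K : Finset (Fin n)) : Set (Fin n)) ≤ 3 := by
    refine (M.eRk_mono hsub).trans ?_
    rw [M.eRk_closure_eq]
    refine (M.eRk_le_encard _).trans ?_
    rw [Set.encard_coe_eq_coe_finsetCard, h3]
    rfl
  -- the complement is dependent in the dual
  have hdep : M✶.Dep (((H ∪ K)ᶜ : Finset (Fin n)) : Set (Fin n)) := by
    refine ⟨?_, by rw [Matroid.dual_ground, hE]; exact Set.subset_univ _⟩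
    rw [Matroid.dual_indep_iff_exists]
    rintro ⟨B, hB, hdisj⟩
    have hBs : B ⊆ ((H ∪ K : Finset (Fin n)) : Set (Fin n)) := by
      intro x hx
      by_contra hx'
      have : x ∈ (((H ∪ K)ᶜ : Finset (Fin n)) : Set (Fin n)) := by
        rw [coe_compl]
        exact hx'
      exact (Set.disjoint_left.1 hdisj this) hx
    have h6 : B.encard ≤ 3 := by
      have := hB.indep.encard_le_eRk_of_subset hBs
      exact this.trans hrk
    rw [hB.encard_eq_eRank, hr] at h6
    exact absurd h6 (by decide)
  obtain ⟨C, hCs, hC⟩ := hdep.exists_isCircuit_subset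
  have h7 := hp' C hC
  have h8 : C.encard ≤ ((n - 5 : ℕ) : ℕ∞) := by
    refine (Set.encard_le_encard hCs).trans ?_
    rw [Set.encard_coe_eq_coe_finsetCard, card_compl, Fintype.card_fin, h5]
  have h9 : M.eRank + M✶.eRank = M.E.encard := M.eRank_add_eRank_dual
  rw [hE, hr, Set.encard_univ, ENat.card_eq_coe_fintype_card, Fintype.card_fin] at h9
  have h10 : (n : ℕ∞) ≤ ((4 + (n - 5) : ℕ) : ℕ∞) := by
    rw [← h9]
    push_cast
    exact add_le_add le_rfl (h7.trans h8)
  have h11 : n ≤ 4 + (n - 5) := by exact_mod_cast h10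
  have h12 : 5 ≤ n := by
    have := card_le_univ (H ∪ K)
    rw [h5, Fintype.card_fin] at this
    exact this
  omega

private theorem nbF_mem (hn : 5 ≤ n) {M : Matroid (Fin n)} (hE : M.E = Set.univ)
    (hr : M.eRank = 4) (hp : Paving M) (hp' : Paving M✶) : nbF M ∈ FV n 0 := by
  classical
  simp only [FV, fams, IsFam, mem_filter, mem_univ, true_and]
  refine ⟨⟨fun H hH => ?_, fun H hH K hK hne => inter_le hE hr hp hp' hH hK hne⟩,
    fun R hR => Or.inl (mem_nbF.1 hR).1, ?_⟩
  · have := (mem_nbF.1 hH).1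
    omega
  · rw [card_eq_zero, filter_eq_empty_iff]
    intro R hR h5
    have := (mem_nbF.1 hR).1
    omega

private theorem nbF_inj {M N : Matroid (Fin n)} (hM : M.E = Set.univ) (hN : N.E = Set.univ)
    (hr : M.eRank = 4) (hr' : N.eRank = 4) (h : nbF M = nbF N) : M = N := by
  classical
  have key : ∀ {P : Matroid (Fin n)}, P.eRank = 4 → ∀ B : Set (Fin n),
      P.IsBase B ↔ B.toFinset.card = 4 ∧ B.toFinset ∉ nbF P := by
    intro P hP B
    rw [mem_nbF, Set.coe_toFinset]
    constructor
    · intro hB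
      have h1 : B.encard = 4 := by rw [hB.encard_eq_eRank, hP]
      refine ⟨?_, fun h => h.2 hB⟩
      rw [Set.encard_eq_coe_toFinset_card] at h1
      exact_mod_cast h1
    · rintro ⟨h1, h2⟩
      by_contra h3
      exact h2 ⟨h1, h3⟩
  refine Matroid.ext_isBase (by rw [hM, hN]) (fun B _ => ?_)
  rw [key hr, key hr', h]

/-- M13 -/
theorem card_sp_le (hn : 5 ≤ n) :
    Nat.card {M : Mat n // M.1.eRank = 4 ∧ Paving M.1 ∧ ¬ HasMG M.1✶} ≤ (FV n 0).card := by
  classical
  have hpd : ∀ M : Mat n, ¬ HasMG M.1✶ → Paving M.1✶ := by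
    intro M h
    by_contra h'
    exact h (hasMG_of_np _ h')
  let f : {M : Mat n // M.1.eRank = 4 ∧ Paving M.1 ∧ ¬ HasMG M.1✶} → {F // F ∈ FV n 0} :=
    fun M => ⟨nbF M.1.1, nbF_mem hn M.1.2 M.2.1 M.2.2.1 (hpd M.1 M.2.2.2)⟩
  have hf : Function.Injective f := by
    intro M N hMN
    have h1 : nbF M.1.1 = nbF N.1.1 := congrArg Subtype.val hMN
    exact Subtype.ext (Subtype.ext (nbF_inj M.1.2 N.1.2 M.2.1 N.2.1 h1))
  have h2 := Nat.card_le_card_of_injective f hf
  rwa [Nat.card_eq_fintype_card (α := {F // F ∈ FV n 0}), Fintype.card_coe] at h2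

end Pool.Agent.C4H6
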