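import Pool.Agent.C4H6.Iter
import Pool.Agent.C4H6.Dual
import Pool.Agent.R4P.RpV
import Pool.Agent.H83Pav.Iff

/-!
MP_039b14_co, corank four: matroids of rank four whose dual is paving, labelled and up to
isomorphism (helper91).
-/

set_option autoImplicit false

namespace Pool.Agent.C4H6

open Finset Pool.Agent.R4P H38Pav H83Pav

variable {n : ℕ}

theorem isom_dual {M N : Mat n} (h : Isom M.1 N.1) : Isom M.1✶ N.1✶ :=
  H83Pav.isom_dual h

/-- paving is invariant under isomorphism -/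
private theorem paving_of_isom {M N : Mat n} (h : Isom M.1 N.1) (hp : Paving M.1) :
    Paving N.1 := by
  obtain ⟨σ, hσ⟩ := act_of_isom (Isom.symm h)
  rw [hσ] at hp
  exact paving_of_act σ N hp

private theorem hasMG_dual_iff (M : Mat n) : HasMG M.1✶ ↔ ¬ Paving (dual M).1 :=
  ⟨fun h => not_paving_of_hasMG _ h, fun h => hasMG_of_not_paving _ h⟩

private theorem not_hasMG_dual_of_isom {M N : Mat n} (h : Isom M.1 N.1)
    (hp : ¬ HasMG M.1✶) : ¬ HasMG N.1✶ := by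
  rw [hasMG_dual_iff, not_not] at hp ⊢
  exact paving_of_isom (H83Pav.isom_dual h) hp

theorem lab4 (A : ℕ) : ∃ N : ℕ, ∀ n : ℕ, N ≤ n →
    n ^ A * Nat.card {M : Mat n // M.1.eRank = 4 ∧ ¬ HasMG M.1✶} ≤
      Nat.card {M : Mat n // M.1.eRank = 4} := by
  obtain ⟨N₁, h₁⟩ := final_np (A + 1)
  obtain ⟨N₂, h₂⟩ := sparse4 (A + 1)
  refine ⟨max (max N₁ N₂) 5, fun n hn => ?_⟩
  have hn5 : 5 ≤ n := (le_max_right _ _).trans hn
  have hn1 : N₁ ≤ n := (le_max_left _ _).trans ((le_max_left _ _).trans hn)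
  have hn2 : N₂ ≤ n := (le_max_right _ _).trans ((le_max_left _ _).trans hn)
  have hF : (fams n).card ≤ Nat.card {M : Mat n // M.1.eRank = 4} := fams_le hn5
  have e1 := h₁ n hn1
  have e2 := (Nat.mul_le_mul_left (n ^ (A + 1)) (card_sp_le hn5)).trans ((h₂ n hn2).trans hF)
  have e3 : Nat.card {M : Mat n // M.1.eRank = 4 ∧ ¬ HasMG M.1✶} ≤
      Nat.card {M : Mat n // M.1.eRank = 4 ∧ ¬ Paving M.1} +
        Nat.card {M : Mat n // M.1.eRank = 4 ∧ Paving M.1 ∧ ¬ HasMG M.1✶} := by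
    classical
    let _ : Fintype (Mat n) := Fintype.ofFinite _
    rw [Nat.card_eq_fintype_card, Nat.card_eq_fintype_card, Nat.card_eq_fintype_card,
      Fintype.card_subtype, Fintype.card_subtype, Fintype.card_subtype]
    refine (Finset.card_le_card ?_).trans (Finset.card_union_le _ _)
    intro M hM
    have h := (Finset.mem_filter.mp hM).2
    by_cases hp : Paving M.1
    · exact Finset.mem_union_right _ (Finset.mem_filter.mpr ⟨Finset.mem_univ _, h.1, hp, h.2⟩)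
    · exact Finset.mem_union_left _ (Finset.mem_filter.mpr ⟨Finset.mem_univ _, h.1, hp⟩)
  set a := Nat.card {M : Mat n // M.1.eRank = 4 ∧ ¬ HasMG M.1✶}
  set L := Nat.card {M : Mat n // M.1.eRank = 4}
  set U := Nat.card {M : Mat n // M.1.eRank = 4 ∧ ¬ Paving M.1}
  set W := Nat.card {M : Mat n // M.1.eRank = 4 ∧ Paving M.1 ∧ ¬ HasMG M.1✶}
  have e4 : n * (n ^ A * a) ≤ 2 * L := by
    calc n * (n ^ A * a) = n ^ (A + 1) * a := by ring
      _ ≤ n ^ (A + 1) * (U + W) := Nat.mul_le_mul_left _ e3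
      _ = n ^ (A + 1) * U + n ^ (A + 1) * W := by ring
      _ ≤ L + L := Nat.add_le_add e1 e2
      _ = 2 * L := by ring
  have e5 : 2 * (n ^ A * a) ≤ 2 * L := (Nat.mul_le_mul_right _ (by omega)).trans e4
  omega

private theorem factorial_mul_le' (n : ℕ) :
    n.factorial *
        Nat.card {c : Cls n // ∃ M : Mat n, cls M = c ∧ M.1.eRank = 4 ∧ ¬ HasMG M.1✶} ≤
      Nat.card {M : Mat n // M.1.eRank = 4 ∧ ¬ HasMG M.1✶} +
      ∑ σ ∈ (univ : Finset (Equiv.Perm (Fin n))).erase 1,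
        Nat.card {M : Mat n // M.1.eRank = 4 ∧ act σ M = M} := by
  classical
  let _ : Fintype (Mat n) := Fintype.ofFinite _
  set T : Finset (Mat n) := univ.filter (fun M => M.1.eRank = 4 ∧ ¬ HasMG M.1✶) with hTd
  have hmem : ∀ M : Mat n, M ∈ T ↔ M.1.eRank = 4 ∧ ¬ HasMG M.1✶ := fun M => by simp [hTd]
  have hT : ∀ M ∈ T, ∀ s, act s M ∈ T := fun M hM s =>
    (hmem _).mpr ⟨by rw [eRank_act]; exact ((hmem M).mp hM).1,
      not_hasMG_dual_of_isom (Isom.symm (cls_eq.mp (cls_act s M))) ((hmem M).mp hM).2⟩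
  have h1 := factorial_mul_image_le T hT
  have h2 := sum_aut_le T (fun M hM => ((hmem M).mp hM).1)
  have h3 : T.card = Nat.card {M : Mat n // M.1.eRank = 4 ∧ ¬ HasMG M.1✶} := by
    rw [Nat.card_eq_fintype_card, Fintype.card_subtype]
  have h4 : Nat.card {c : Cls n // ∃ M : Mat n, cls M = c ∧ M.1.eRank = 4 ∧ ¬ HasMG M.1✶} ≤
      (T.image cls).card := by
    rw [← Fintype.card_coe, ← Nat.card_eq_fintype_card]
    refine Nat.card_le_card_of_injective (fun c => ⟨c.1, ?_⟩) ?_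
    · obtain ⟨M, hM, hM4, hMG⟩ := c.2
      exact Finset.mem_image.mpr ⟨M, (hmem _).mpr ⟨hM4, hMG⟩, hM⟩
    · intro c c' h
      exact Subtype.ext (congrArg (fun x => x.1) h)
  rw [← h3]
  exact (Nat.mul_le_mul_left _ h4).trans (h1.trans h2)

theorem cls4 (A : ℕ) : ∃ N : ℕ, ∀ n : ℕ, N ≤ n →
    n ^ A * Nat.card {c : Cls n // ∃ M : Mat n, cls M = c ∧ M.1.eRank = 4 ∧ ¬ HasMG M.1✶} ≤
      Nat.card {c : Cls n // R4 c} := by
  obtain ⟨N₁, h₁⟩ := lab4 (A + 1)
  obtain ⟨N₂, h₂⟩ := asym (A + 1)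
  refine ⟨max (max N₁ N₂) 5, fun n hn => ?_⟩
  have hn5 : 5 ≤ n := (le_max_right _ _).trans hn
  have hn1 : N₁ ≤ n := (le_max_left _ _).trans ((le_max_left _ _).trans hn)
  have hn2 : N₂ ≤ n := (le_max_right _ _).trans ((le_max_left _ _).trans hn)
  have hL := card_le_factorial_mul n
  have hF : (fams n).card ≤ Nat.card {M : Mat n // M.1.eRank = 4} := fams_le hn5
  have hfac : 0 < n.factorial := Nat.factorial_pos n
  have e1 := h₁ n hn1
  have e2 := (h₂ n hn2).trans hF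
  have e3 := factorial_mul_le' n
  set a := Nat.card {c : Cls n // ∃ M : Mat n, cls M = c ∧ M.1.eRank = 4 ∧ ¬ HasMG M.1✶}
  set C := Nat.card {c : Cls n // R4 c}
  set L := Nat.card {M : Mat n // M.1.eRank = 4}
  set U := Nat.card {M : Mat n // M.1.eRank = 4 ∧ ¬ HasMG M.1✶}
  set S := ∑ σ ∈ (univ : Finset (Equiv.Perm (Fin n))).erase 1,
      Nat.card {M : Mat n // M.1.eRank = 4 ∧ act σ M = M}
  have e4 : n.factorial * (n * (n ^ A * a)) ≤ n.factorial * (2 * C) := by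
    calc n.factorial * (n * (n ^ A * a)) = n ^ (A + 1) * (n.factorial * a) := by ring
      _ ≤ n ^ (A + 1) * (U + S) := Nat.mul_le_mul_left _ e3
      _ = n ^ (A + 1) * U + n ^ (A + 1) * S := by ring
      _ ≤ L + L := Nat.add_le_add e1 e2
      _ = 2 * L := by ring
      _ ≤ 2 * (n.factorial * C) := Nat.mul_le_mul_left _ hL
      _ = n.factorial * (2 * C) := by ring
  have e5 : n * (n ^ A * a) ≤ 2 * C := Nat.le_of_mul_le_mul_left e4 hfac
  have e6 : 2 * (n ^ A * a) ≤ 2 * C := (Nat.mul_le_mul_right _ (by omega)).trans e5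
  omega

end Pool.Agent.C4H6
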