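import Pool.Agent.C4H6.Defs

/-!
MP_039b14_co, corank four: counting five-element sets.
-/

set_option autoImplicit false

namespace Pool.Agent.C4H6

open Finset Pool.Agent.R4P

variable {n : ℕ}

open Classical in
private theorem over_one (T : Finset (Fin n)) (hT : T.card = 3) :
    ((fvs n).filter (fun Z => T ⊆ Z)).card ≤ (n - 3).choose 2 := by
  have h1 : ((univ \ T : Finset (Fin n)).powersetCard 2).card = (n - 3).choose 2 := by
    rw [card_powersetCard, card_sdiff_of_subset (subset_univ T), card_univ, Fintype.card_fin, hT]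
  rw [← h1]
  apply card_le_card_of_injOn (fun Z => Z \ T)
  · intro Z hZ
    simp only [fvs, coe_filter, mem_powersetCard, Set.mem_ofPred_eq] at hZ
    rw [mem_coe, mem_powersetCard]
    refine ⟨sdiff_subset_sdiff (subset_univ Z) (Subset.refl T), ?_⟩
    rw [card_sdiff_of_subset hZ.2, hZ.1.2, hT]
  · intro Z hZ Z' hZ' h
    simp only [fvs, coe_filter, mem_powersetCard, Set.mem_ofPred_eq] at hZ hZ'
    change Z \ T = Z' \ T at h
    rw [← sdiff_union_of_subset hZ.2, ← sdiff_union_of_subset hZ'.2, h]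

open Classical in
theorem over_le (B : Finset (Finset (Fin n))) (hB : B ⊆ trs n) :
    ((fvs n).filter (fun Z => ∃ T ∈ B, T ⊆ Z)).card ≤ B.card * (n - 3).choose 2 := by
  have h1 : (fvs n).filter (fun Z => ∃ T ∈ B, T ⊆ Z) ⊆
      B.biUnion (fun T => (fvs n).filter (fun Z => T ⊆ Z)) := by
    intro Z hZ
    rw [mem_filter] at hZ
    obtain ⟨hZ, T, hT, hTZ⟩ := hZ
    exact mem_biUnion.2 ⟨T, hT, mem_filter.2 ⟨hZ, hTZ⟩⟩
  refine (card_le_card h1).trans (card_biUnion_le_card_mul _ _ _ ?_)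
  intro T hT
  exact over_one T (mem_powersetCard.1 (hB hT)).2

open Classical in
theorem notgood_le {t : ℕ} {F : Finset (Finset (Fin n))} (hF : F ∈ FV n t) :
    ((fvs n).filter (fun Z => ¬ Good F Z)).card ≤ 5 * t * n ^ 2 := by
  rw [FV, mem_filter] at hF
  obtain ⟨-, -, ht⟩ := hF
  set S := F.filter (fun R => R.card = 5) with hS
  have hB : S.biUnion (fun R => R.powersetCard 3) ⊆ trs n := by
    intro T hT
    obtain ⟨R, -, hT⟩ := mem_biUnion.1 hT
    exact mem_powersetCard.2 ⟨subset_univ T, (mem_powersetCard.1 hT).2⟩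
  have hc : (S.biUnion (fun R => R.powersetCard 3)).card ≤ t * 10 := by
    rw [← ht]
    apply card_biUnion_le_card_mul
    intro R hR
    rw [hS, mem_filter] at hR
    rw [card_powersetCard, hR.2]
    decide
  have h1 : (fvs n).filter (fun Z => ¬ Good F Z) ⊆
      (fvs n).filter (fun Z => ∃ T ∈ S.biUnion (fun R => R.powersetCard 3), T ⊆ Z) := by
    intro Z hZ
    rw [mem_filter] at hZ ⊢
    refine ⟨hZ.1, ?_⟩
    have h2 : Z.card = 5 := (mem_powersetCard.1 hZ.1).2
    by_contra hcon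
    apply hZ.2
    refine ⟨h2, fun R hR hR5 => ?_⟩
    by_contra h3
    push Not at h3
    obtain ⟨T, hT, hT3⟩ := exists_subset_card_eq (Nat.succ_le_of_lt h3)
    apply hcon
    refine ⟨T, mem_biUnion.2 ⟨R, ?_, ?_⟩, hT.trans inter_subset_right⟩
    · exact mem_filter.2 ⟨hR, hR5⟩
    · exact mem_powersetCard.2 ⟨hT.trans inter_subset_left, hT3⟩
  have h2 := (card_le_card h1).trans (over_le _ hB)
  have h3 : 2 * (n - 3).choose 2 ≤ n ^ 2 := by
    have h4 := Nat.choose_two_right (n - 3)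
    have h5 : 2 * (n - 3).choose 2 ≤ (n - 3) * (n - 3 - 1) := by
      rw [h4]
      exact Nat.mul_div_le _ _
    refine h5.trans ?_
    rw [pow_two]
    exact Nat.mul_le_mul (Nat.sub_le _ _) ((Nat.sub_le _ _).trans (Nat.sub_le _ _))
  calc _ ≤ _ := h2
    _ ≤ (t * 10) * (n - 3).choose 2 := Nat.mul_le_mul_right _ hc
    _ = 5 * t * (2 * (n - 3).choose 2) := by ring
    _ ≤ 5 * t * n ^ 2 := Nat.mul_le_mul_left _ h3

theorem choose53 (n : ℕ) : n.choose 3 * (n - 3).choose 2 = 10 * n.choose 5 := by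
  rcases lt_or_ge n 5 with h | h
  · interval_cases n <;> decide
  · have h1 := Nat.choose_mul (n := n) (show 3 ≤ 5 by norm_num)
    have h2 : Nat.choose 5 3 = 10 := by decide
    rw [h2] at h1
    rw [← h1]
    ring

end Pool.Agent.C4H6
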