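import Pool.Agent.C4H6.Cls4

/-!
MP_039b14_co, corank four: duality.
-/

set_option autoImplicit false

namespace Pool.Agent.C4H6

open Finset Pool.Agent.R4P H38Pav H83Pav

variable {n : ℕ}

/-- the rank of (the members of) the class is `n - 4` -/
def RC4 (c : Cls n) : Prop := ∃ M : Mat n, cls M = c ∧ M.1.eRank + 4 = n

namespace Cor5

theorem dual_dual (M : Mat n) : dual (dual M) = M := Subtype.ext (Matroid.dual_dual M.1)

/-- duality of labelled matroids -/
noncomputable def dualE (n : ℕ) : Mat n ≃ Mat n := ⟨dual, dual, dual_dual, dual_dual⟩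

theorem rank_add (M : Mat n) : M.1.eRank + (dual M).1.eRank = (n : ℕ∞) := by
  have h := M.1.eRank_add_eRank_dual
  rw [M.2, Set.encard_univ, ENat.card_eq_coe_fintype_card, Fintype.card_fin] at h
  exact h

theorem rank_ne_top (M : Mat n) : M.1.eRank ≠ ⊤ := by
  intro h
  have h1 := rank_add M
  rw [h, top_add] at h1
  exact absurd h1.symm (ENat.coe_ne_top n)

theorem rank_iff (M : Mat n) : M.1.eRank + 4 = n ↔ (dual M).1.eRank = 4 := by
  have h := rank_add M
  constructor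
  · intro h1
    rw [← h] at h1
    exact (ENat.add_right_injective_of_ne_top (rank_ne_top M) h1).symm
  · intro h1
    rw [h1] at h
    exact h

theorem lab_eq (n : ℕ) : Nat.card {M : Mat n // M.1.eRank + 4 = n} =
    Nat.card {M : Mat n // M.1.eRank = 4} :=
  Nat.card_congr ((dualE n).subtypeEquiv (fun M => rank_iff M))

theorem lab_eq' (n : ℕ) : Nat.card {M : Mat n // M.1.eRank + 4 = n ∧ ¬ HasMG M.1} =
    Nat.card {M : Mat n // M.1.eRank = 4 ∧ ¬ HasMG M.1✶} :=
  Nat.card_congr ((dualE n).subtypeEquiv (fun M => by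
    have : ((dualE n) M).1✶ = M.1 := Matroid.dual_dual M.1
    rw [this, rank_iff]
    rfl))

/-- duality of classes -/
noncomputable def dualC (n : ℕ) : Cls n ≃ Cls n :=
  Quotient.congr (dualE n) (fun M N => ⟨fun h => isom_dual h, fun h => by
    have := isom_dual (M := dual M) (N := dual N) h
    have e1 : (dual M).1✶ = M.1 := Matroid.dual_dual M.1
    have e2 : (dual N).1✶ = N.1 := Matroid.dual_dual N.1
    rw [e1, e2] at this
    exact this⟩)

theorem dualC_cls (M : Mat n) : dualC n (cls M) = cls (dual M) := rfl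

theorem dualC_dualC (c : Cls n) : dualC n (dualC n c) = c := by
  induction c using Quotient.inductionOn with
  | _ M =>
    show dualC n (dualC n (cls M)) = cls M
    rw [dualC_cls, dualC_cls, dual_dual]

theorem cls_iff (c : Cls n) : RC4 c ↔ R4 (dualC n c) := by
  constructor
  · rintro ⟨M, rfl, hM⟩
    exact ⟨dual M, (dualC_cls M).symm, (rank_iff M).mp hM⟩
  · rintro ⟨M, h1, h2⟩
    refine ⟨dual M, ?_, (rank_iff _).mpr (by rw [dual_dual]; exact h2)⟩
    rw [← dualC_cls, h1, dualC_dualC]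

theorem cls_card (n : ℕ) : Nat.card {c : Cls n // RC4 c} = Nat.card {c : Cls n // R4 c} :=
  Nat.card_congr ((dualC n).subtypeEquiv (fun c => cls_iff c))

theorem cls_card' (n : ℕ) : Nat.card {c : Cls n // RC4 c ∧ ¬ c.HasMG} ≤
    Nat.card {c : Cls n // ∃ M : Mat n, cls M = c ∧ M.1.eRank = 4 ∧ ¬ HasMG M.1✶} := by
  refine Nat.card_le_card_of_injective (fun c => ⟨dualC n c.1, ?_⟩) ?_
  · obtain ⟨⟨M, hM, hr⟩, hG⟩ := c.2
    refine ⟨dual M, ?_, (rank_iff M).mp hr, ?_⟩
    · rw [← dualC_cls, hM]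
    · have e1 : (dual M).1✶ = M.1 := Matroid.dual_dual M.1
      rw [e1]
      exact fun h => hG ⟨M, hM, h⟩
  · intro c c' h
    exact Subtype.ext ((dualC n).injective (congrArg (fun x => x.1) h))

end Cor5

theorem lab_corank (A : ℕ) : ∃ N : ℕ, ∀ n : ℕ, N ≤ n →
    0 < Nat.card {M : Mat n // M.1.eRank + 4 = n} ∧
    n ^ A * Nat.card {M : Mat n // M.1.eRank + 4 = n ∧ ¬ HasMG M.1} ≤
      Nat.card {M : Mat n // M.1.eRank + 4 = n} := by
  obtain ⟨N, hN⟩ := lab4 A
  refine ⟨max N 5, fun n hn => ⟨?_, ?_⟩⟩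
  · rw [Cor5.lab_eq]
    exact (fams_pos n).trans_le (fams_le ((le_max_right _ _).trans hn))
  · rw [Cor5.lab_eq, Cor5.lab_eq']
    exact hN n ((le_max_left _ _).trans hn)

theorem cls_corank (A : ℕ) : ∃ N : ℕ, ∀ n : ℕ, N ≤ n →
    0 < Nat.card {c : Cls n // RC4 c} ∧
    n ^ A * Nat.card {c : Cls n // RC4 c ∧ ¬ c.HasMG} ≤ Nat.card {c : Cls n // RC4 c} := by
  obtain ⟨N, hN⟩ := cls4 A
  obtain ⟨N', hN'⟩ := final_cls 0
  refine ⟨max N N', fun n hn => ⟨?_, ?_⟩⟩
  · rw [Cor5.cls_card]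
    exact (hN' n ((le_max_right _ _).trans hn)).1
  · rw [Cor5.cls_card]
    exact (Nat.mul_le_mul_left _ (Cor5.cls_card' n)).trans (hN n ((le_max_left _ _).trans hn))

end Pool.Agent.C4H6
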