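import Pool.Agent.R4P.Defs

/-!
MP_039b14_co, corank four: definitions.

`fams n` (see `Pool.Agent.R4P.Defs`) are the families of planes with at least four points of the
paving matroids of rank four on `Fin n`.
-/

set_option autoImplicit false

namespace Pool.Agent.C4H6

open Finset Pool.Agent.R4P

variable {n : ℕ}

open Classical in
/-- the families all of whose members have four or five elements, exactly `t` of them five -/
noncomputable def FV (n t : ℕ) : Finset (Finset (Finset (Fin n))) :=
  (fams n).filter (fun F => (∀ R ∈ F, R.card = 4 ∨ R.card = 5) ∧
    (F.filter (fun R => R.card = 5)).card = t)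

/-- `Z` has five elements and meets every member with five elements in at most two elements -/
def Good (F : Finset (Finset (Fin n))) (Z : Finset (Fin n)) : Prop :=
  Z.card = 5 ∧ ∀ R ∈ F, R.card = 5 → (R ∩ Z).card ≤ 2

/-- the switch: the members which meet `Z` in at least three elements are removed, `Z` is added -/
def sw (F : Finset (Finset (Fin n))) (Z : Finset (Fin n)) : Finset (Finset (Fin n)) :=
  insert Z (F.filter (fun R => (R ∩ Z).card ≤ 2))

open Classical in
/-- the elements `s` off `T` such that none of the triples of `T ∪ {s}` through `s` is covered -/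
noncomputable def CF (F : Finset (Finset (Fin n))) (T : Finset (Fin n)) : Finset (Fin n) :=
  univ.filter (fun s => s ∉ T ∧ ∀ a ∈ T, ¬ Cov F (insert s (T.erase a)))

/-- all triples -/
def trs (n : ℕ) : Finset (Finset (Fin n)) := univ.powersetCard 3

/-- all sets with five elements -/
def fvs (n : ℕ) : Finset (Finset (Fin n)) := univ.powersetCard 5

/-- the members which contain `T` -/
def mem3 (T : Finset (Fin n)) (F : Finset (Finset (Fin n))) : Finset (Finset (Fin n)) :=
  F.filter (fun R => T ⊆ R)

open Classical in
/-- the families which the switch at `Z` sends to `G` -/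
noncomputable def fib (t : ℕ) (G : Finset (Finset (Fin n))) (Z : Finset (Fin n)) :
    Finset (Finset (Finset (Fin n))) :=
  (FV n t).filter (fun F => Good F Z ∧ sw F Z = G)

open Classical in
/-- the families with few triples through an element off a triple uncovered -/
noncomputable def lowF (n t K : ℕ) : Finset (Finset (Finset (Fin n))) :=
  (FV n t).filter (fun F => ∑ T ∈ trs n, (CF F T).card ≤ K * n.choose 3)

open Classical in
/-- the other families -/
noncomputable def highF (n t K : ℕ) : Finset (Finset (Finset (Fin n))) :=
  (FV n t).filter (fun F => K * n.choose 3 < ∑ T ∈ trs n, (CF F T).card)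

open Classical in
/-- the sets `Z` used for the families in `lowF` -/
noncomputable def okZ (K : ℕ) (F : Finset (Finset (Fin n))) : Finset (Finset (Fin n)) :=
  (fvs n).filter (fun Z => Good F Z ∧ ∀ T ∈ Z.powersetCard 3, (CF F T).card ≤ 40 * K)

open Classical in
/-- the pairs `(T, Z)` used for the families in `highF` -/
noncomputable def PB (F : Finset (Finset (Fin n))) : Finset (Finset (Fin n) × Finset (Fin n)) :=
  (trs n ×ˢ fvs n).filter (fun p => p.1 ⊆ p.2 ∧ p.2 \ p.1 ⊆ CF F p.1 ∧ Good F p.2)

end Pool.Agent.C4H6
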