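import Pool.Agent.C4H6.Step

/-!
MP_039b14_co, corank four: iteration of the switching step.
-/

set_option autoImplicit false

namespace Pool.Agent.C4H6

open Finset Pool.Agent.R4P

variable {n : ℕ}

private theorem iter_aux (T : ℕ) : ∃ Q : ℕ, ∀ n q : ℕ, Q ≤ q → q ^ 4 ≤ n → n < (q + 1) ^ 4 →
    q ^ T * (FV n 0).card ≤ 500 ^ T * T.factorial * (FV n T).card := by
  induction T with
  | zero => exact ⟨0, fun n q _ _ _ => by simp⟩
  | succ T ih =>
    obtain ⟨Q1, h1⟩ := ih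
    obtain ⟨Q2, h2⟩ := step T
    refine ⟨max Q1 Q2, fun n q hq ha hb => ?_⟩
    have e1 := h1 n q (le_trans (le_max_left _ _) hq) ha hb
    have e2 := h2 n q (le_trans (le_max_right _ _) hq) ha hb
    calc q ^ (T + 1) * (FV n 0).card = q * (q ^ T * (FV n 0).card) := by ring
      _ ≤ q * (500 ^ T * T.factorial * (FV n T).card) := Nat.mul_le_mul_left _ e1
      _ = 500 ^ T * T.factorial * (q * (FV n T).card) := by ring
      _ ≤ 500 ^ T * T.factorial * (500 * (T + 1) * (FV n (T + 1)).card) :=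
          Nat.mul_le_mul_left _ e2
      _ = 500 ^ (T + 1) * (T + 1).factorial * (FV n (T + 1)).card := by
          rw [Nat.factorial_succ]; ring

theorem sparse4 (A : ℕ) : ∃ N : ℕ, ∀ n : ℕ, N ≤ n → n ^ A * (FV n 0).card ≤ (fams n).card := by
  classical
  obtain ⟨Q, hQ⟩ := iter_aux (4 * A + 1)
  set C : ℕ := 500 ^ (4 * A + 1) * (4 * A + 1).factorial with hC
  have hCpos : 0 < C := Nat.mul_pos (by positivity) (Nat.factorial_pos _)
  refine ⟨(max (max Q 1) (16 ^ A * C)) ^ 4, fun n hn => ?_⟩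
  set q : ℕ := Nat.sqrt (Nat.sqrt n) with hq
  have h1 : q * q ≤ Nat.sqrt n := Nat.sqrt_le _
  have h2 : Nat.sqrt n * Nat.sqrt n ≤ n := Nat.sqrt_le _
  have h3 : q ^ 4 ≤ n := by
    calc q ^ 4 = (q * q) * (q * q) := by ring
      _ ≤ Nat.sqrt n * Nat.sqrt n := Nat.mul_le_mul h1 h1
      _ ≤ n := h2
  have h4 : Nat.sqrt n < (q + 1) * (q + 1) := Nat.lt_succ_sqrt _
  have h5 : n < (Nat.sqrt n + 1) * (Nat.sqrt n + 1) := Nat.lt_succ_sqrt _
  have h6 : n < (q + 1) ^ 4 := by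
    calc n < (Nat.sqrt n + 1) * (Nat.sqrt n + 1) := h5
      _ ≤ ((q + 1) * (q + 1)) * ((q + 1) * (q + 1)) := Nat.mul_le_mul h4 h4
      _ = (q + 1) ^ 4 := by ring
  have h7 : max (max Q 1) (16 ^ A * C) ≤ q := by
    by_contra hlt
    push Not at hlt
    have : q + 1 ≤ max (max Q 1) (16 ^ A * C) := hlt
    have h8 : (q + 1) ^ 4 ≤ (max (max Q 1) (16 ^ A * C)) ^ 4 := Nat.pow_le_pow_left this 4
    omega
  have hqQ : Q ≤ q := le_trans (le_trans (le_max_left _ _) (le_max_left _ _)) h7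
  have hq1 : 1 ≤ q := le_trans (le_trans (le_max_right _ _) (le_max_left _ _)) h7
  have hqC : 16 ^ A * C ≤ q := le_trans (le_max_right _ _) h7
  have h9 := hQ n q hqQ h3 h6
  have h10 : n ^ A ≤ 16 ^ A * q ^ (4 * A) := by
    have : n ≤ 16 * q ^ 4 := by
      have h11 : (q + 1) ^ 4 ≤ (2 * q) ^ 4 := Nat.pow_le_pow_left (by omega) 4
      have h12 : (2 * q) ^ 4 = 16 * q ^ 4 := by ring
      omega
    calc n ^ A ≤ (16 * q ^ 4) ^ A := Nat.pow_le_pow_left this A
      _ = 16 ^ A * q ^ (4 * A) := by rw [mul_pow, ← pow_mul]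
  have hsub : (FV n (4 * A + 1)).card ≤ (fams n).card := card_le_card (filter_subset _ _)
  have h13 : C * (n ^ A * (FV n 0).card) ≤ C * (fams n).card := by
    calc C * (n ^ A * (FV n 0).card) = n ^ A * (C * (FV n 0).card) := by ring
      _ ≤ (16 ^ A * q ^ (4 * A)) * (C * (FV n 0).card) := Nat.mul_le_mul_right _ h10
      _ = (16 ^ A * C) * (q ^ (4 * A) * (FV n 0).card) := by ring
      _ ≤ q * (q ^ (4 * A) * (FV n 0).card) := Nat.mul_le_mul_right _ hqC
      _ = q ^ (4 * A + 1) * (FV n 0).card := by ring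
      _ ≤ C * (FV n (4 * A + 1)).card := h9
      _ ≤ C * (fams n).card := Nat.mul_le_mul_left _ hsub
  exact Nat.le_of_mul_le_mul_left h13 hCpos

end Pool.Agent.C4H6
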