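import Pool.Agent.C4H6.CaseA
import Pool.Agent.C4H6.CaseB

set_option autoImplicit false

namespace Pool.Agent.C4H6

open Finset Pool.Agent.R4P

theorem st_choose5 {n : ℕ} (hn : 40 ≤ n) : (n : ℝ) ^ 5 ≤ 240 * (n.choose 5 : ℝ) := by
  have h1 := Nat.pow_sub_le_descFactorial n 5
  rw [Nat.descFactorial_eq_factorial_mul_choose] at h1
  have h2 : ((n + 1 - 5 : ℕ) : ℝ) = (n : ℝ) - 4 := by
    rw [show n + 1 - 5 = n - 4 by omega, Nat.cast_sub (by omega)]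
    norm_num
  have h3 : ((n : ℝ) - 4) ^ 5 ≤ 120 * (n.choose 5 : ℝ) := by
    rw [← h2]
    have h4 : ((n + 1 - 5 : ℕ) : ℝ) ^ 5 ≤ ((Nat.factorial 5 * n.choose 5 : ℕ) : ℝ) := by
      exact_mod_cast h1
    refine h4.trans (le_of_eq ?_)
    rw [Nat.cast_mul]
    norm_num [Nat.factorial]
  have hn' : (40 : ℝ) ≤ n := by exact_mod_cast hn
  have h5 : (1 : ℝ) + (5 : ℕ) * (-(4 / (n : ℝ))) ≤ (1 + -(4 / (n : ℝ))) ^ 5 := by
    apply one_add_mul_le_pow
    have : 4 / (n : ℝ) ≤ 1 := by rw [div_le_one (by linarith)]; linarith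
    linarith
  have h6 : (1 / 2 : ℝ) ≤ (1 + -(4 / (n : ℝ))) ^ 5 := by
    refine le_trans ?_ h5
    have : 4 / (n : ℝ) ≤ 1 / 10 := by rw [div_le_div_iff₀ (by linarith) (by norm_num)]; linarith
    push_cast
    linarith
  have h7 : ((n : ℝ) - 4) ^ 5 = (n : ℝ) ^ 5 * (1 + -(4 / (n : ℝ))) ^ 5 := by
    rw [← mul_pow]
    congr 1
    have : (n : ℝ) ≠ 0 := by linarith
    field_simp
    ring
  have h8 : (n : ℝ) ^ 5 * (1 / 2) ≤ ((n : ℝ) - 4) ^ 5 := by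
    rw [h7]
    exact mul_le_mul_of_nonneg_left h6 (by positivity)
  linarith

theorem st_choose3 {n : ℕ} (hn : 40 ≤ n) : ((n : ℝ) + 1) ^ 3 ≤ 12 * (n.choose 3 : ℝ) := by
  have h1 := Nat.pow_sub_le_descFactorial n 3
  rw [Nat.descFactorial_eq_factorial_mul_choose] at h1
  have h2 : ((n + 1 - 3 : ℕ) : ℝ) = (n : ℝ) - 2 := by
    rw [show n + 1 - 3 = n - 2 by omega, Nat.cast_sub (by omega)]
    norm_num
  have h3 : ((n : ℝ) - 2) ^ 3 ≤ 6 * (n.choose 3 : ℝ) := by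
    rw [← h2]
    have h4 : ((n + 1 - 3 : ℕ) : ℝ) ^ 3 ≤ ((Nat.factorial 3 * n.choose 3 : ℕ) : ℝ) := by
      exact_mod_cast h1
    refine h4.trans (le_of_eq ?_)
    rw [Nat.cast_mul]
    norm_num [Nat.factorial]
  have hn' : (40 : ℝ) ≤ n := by exact_mod_cast hn
  nlinarith [mul_nonneg (sub_nonneg.2 hn') (sub_nonneg.2 hn'),
    mul_nonneg (mul_nonneg (sub_nonneg.2 hn') (sub_nonneg.2 hn')) (sub_nonneg.2 hn')]

theorem st_low {n q t : ℕ} (hq : 480 * 53 ^ 10 + 5000 * t + 100 ≤ q) (hqn : q ^ 4 ≤ n) :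
    (q : ℝ) * (lowF n t q).card ≤ (t + 1) * (FV n (t + 1)).card := by
  have hq1 : 100 ≤ q := by omega
  have hqn1 : q ≤ n := (Nat.le_self_pow (by norm_num) q).trans hqn
  have hn40 : 40 ≤ n := by omega
  have hq' : ((480 * 53 ^ 10 + 5000 * t + 100 : ℕ) : ℝ) ≤ q := by exact_mod_cast hq
  push_cast at hq'
  have ht : (0 : ℝ) ≤ t := Nat.cast_nonneg t
  have hqR : (100 : ℝ) ≤ q := by exact_mod_cast hq1
  have hnq : (q : ℝ) ^ 4 ≤ n := by exact_mod_cast hqn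
  have hnR : (q : ℝ) ≤ n := by exact_mod_cast hqn1
  have h5 := st_choose5 hn40
  have hn : 20 * t * n ^ 2 ≤ n.choose 5 := by
    have h1 : (20 : ℝ) * t * (n : ℝ) ^ 2 * 240 ≤ (n : ℝ) ^ 5 := by
      have h2 : (5000 : ℝ) * t ≤ n := by
        have : (0 : ℝ) ≤ 480 * 53 ^ 10 := by positivity
        linarith
      have h3 : (1 : ℝ) ≤ n := by linarith
      have h4 : (5000 : ℝ) * t ≤ (n : ℝ) ^ 3 := by
        refine h2.trans ?_
        nlinarith [mul_nonneg (sub_nonneg.2 h3) (sub_nonneg.2 h3), mul_pos (lt_of_lt_of_le one_pos h3)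
          (lt_of_lt_of_le one_pos h3), mul_nonneg (mul_nonneg (sub_nonneg.2 h3) (sub_nonneg.2 h3))
          (sub_nonneg.2 h3)]
      calc (20 : ℝ) * t * (n : ℝ) ^ 2 * 240 = (4800 * t) * (n : ℝ) ^ 2 := by ring
        _ ≤ (n : ℝ) ^ 3 * (n : ℝ) ^ 2 :=
            mul_le_mul_of_nonneg_right (by linarith) (by positivity)
        _ = (n : ℝ) ^ 5 := by ring
    have h2 : (20 : ℝ) * t * (n : ℝ) ^ 2 ≤ (n.choose 5 : ℝ) := by linarith
    exact_mod_cast h2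
  have hA := caseA (n := n) (t := t) (K := q) (by omega) (by omega) hn
  have hA' : ((lowF n t q).card : ℝ) * (n.choose 5 : ℝ) ≤
      2 * (t + 1) * (40 * q + 13) ^ 10 * (FV n (t + 1)).card := by exact_mod_cast hA
  set L : ℝ := ((lowF n t q).card : ℝ) with hL
  set V : ℝ := ((FV n (t + 1)).card : ℝ) with hV
  have hL0 : 0 ≤ L := Nat.cast_nonneg _
  have hV0 : 0 ≤ V := Nat.cast_nonneg _
  have h6 : (40 * (q : ℝ) + 13) ^ 10 ≤ (53 * q) ^ 10 :=
    pow_le_pow_left₀ (by positivity) (by linarith) 10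
  have h7 : (q : ℝ) ^ 20 ≤ (n : ℝ) ^ 5 := by
    calc (q : ℝ) ^ 20 = ((q : ℝ) ^ 4) ^ 5 := by ring
      _ ≤ (n : ℝ) ^ 5 := pow_le_pow_left₀ (by positivity) hnq 5
  have h8 : L * (q : ℝ) ^ 20 ≤ 480 * (t + 1) * (53 * q) ^ 10 * V := by
    calc L * (q : ℝ) ^ 20 ≤ L * (240 * (n.choose 5 : ℝ)) :=
          mul_le_mul_of_nonneg_left (h7.trans h5) hL0
      _ = 240 * (L * (n.choose 5 : ℝ)) := by ring
      _ ≤ 240 * (2 * (t + 1) * (40 * q + 13) ^ 10 * V) := by linarith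
      _ ≤ 240 * (2 * (t + 1) * (53 * q) ^ 10 * V) := by
          refine mul_le_mul_of_nonneg_left ?_ (by norm_num)
          refine mul_le_mul_of_nonneg_right ?_ hV0
          exact mul_le_mul_of_nonneg_left h6 (by positivity)
      _ = _ := by ring
  have hqpos : (0 : ℝ) < q := by linarith
  have h9 : (480 : ℝ) * 53 ^ 10 ≤ (q : ℝ) ^ 9 := by
    have a1 : (480 : ℝ) * 53 ^ 10 ≤ q := by linarith
    refine a1.trans ?_
    exact le_self_pow₀ (by linarith) (by norm_num)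
  have h10 : (q : ℝ) ^ 19 * (q * L) ≤ (q : ℝ) ^ 19 * ((t + 1) * V) := by
    calc (q : ℝ) ^ 19 * (q * L) = L * (q : ℝ) ^ 20 := by ring
      _ ≤ 480 * (t + 1) * (53 * q) ^ 10 * V := h8
      _ = (480 * 53 ^ 10) * ((q : ℝ) ^ 10 * ((t + 1) * V)) := by ring
      _ ≤ (q : ℝ) ^ 9 * ((q : ℝ) ^ 10 * ((t + 1) * V)) :=
          mul_le_mul_of_nonneg_right h9 (by positivity)
      _ = _ := by ring
  exact le_of_mul_le_mul_left h10 (by positivity)

theorem st_high {n q t : ℕ} (hq : 480 * 53 ^ 10 + 5000 * t + 100 ≤ q) (hqn : q ^ 4 ≤ n) :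
    (q : ℝ) * (highF n t q).card ≤ 480 * ((t + 1) * (FV n (t + 1)).card) := by
  have hq1 : 100 ≤ q := by omega
  have hqn1 : q ≤ n := (Nat.le_self_pow (by norm_num) q).trans hqn
  have hn40 : 40 ≤ n := by omega
  have hq' : ((480 * 53 ^ 10 + 5000 * t + 100 : ℕ) : ℝ) ≤ q := by exact_mod_cast hq
  push_cast at hq'
  have ht : (0 : ℝ) ≤ t := Nat.cast_nonneg t
  have hqR : (100 : ℝ) ≤ q := by exact_mod_cast hq1
  have hnR : (q : ℝ) ≤ n := by exact_mod_cast hqn1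
  have h3 := st_choose3 hn40
  have hB := caseB (n := n) (t := t) (K := q) (by omega)
  set H : ℝ := ((highF n t q).card : ℝ) with hH
  set V : ℝ := ((FV n (t + 1)).card : ℝ) with hV
  have hH0 : 0 ≤ H := Nat.cast_nonneg _
  have hV0 : 0 ≤ V := Nat.cast_nonneg _
  have h4 : ((q : ℝ) - 15) * ((n : ℝ) + 1) ^ 3 / 24 ≤
      ((q : ℝ) - 14) * (n.choose 3 : ℝ) / 2 - 4 * t * (n : ℝ) ^ 2 := by
    have h5 : ((q : ℝ) - 14) * (((n : ℝ) + 1) ^ 3) ≤ ((q : ℝ) - 14) * (12 * (n.choose 3 : ℝ)) :=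
      mul_le_mul_of_nonneg_left h3 (by linarith)
    have h6 : 96 * (t : ℝ) * (n : ℝ) ^ 2 ≤ ((n : ℝ) + 1) ^ 3 := by
      have h7 : 96 * (t : ℝ) ≤ (n : ℝ) + 1 := by
        have : (0 : ℝ) ≤ 480 * 53 ^ 10 := by positivity
        linarith
      calc 96 * (t : ℝ) * (n : ℝ) ^ 2 ≤ ((n : ℝ) + 1) * (n : ℝ) ^ 2 :=
            mul_le_mul_of_nonneg_right h7 (by positivity)
        _ ≤ ((n : ℝ) + 1) * ((n : ℝ) + 1) ^ 2 := by
            refine mul_le_mul_of_nonneg_left ?_ (by positivity)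
            exact pow_le_pow_left₀ (by positivity) (by linarith) 2
        _ = _ := by ring
    linarith
  have h5 : H * (((q : ℝ) - 15) * ((n : ℝ) + 1) ^ 3 / 24) ≤
      10 * (t + 1) * ((n : ℝ) + 1) ^ 3 * V :=
    (mul_le_mul_of_nonneg_left h4 hH0).trans hB
  have hn3 : (0 : ℝ) < ((n : ℝ) + 1) ^ 3 := by positivity
  have h6 : ((n : ℝ) + 1) ^ 3 * (H * ((q : ℝ) - 15)) ≤ ((n : ℝ) + 1) ^ 3 * (240 * ((t + 1) * V)) := by
    linarith
  have h7 := le_of_mul_le_mul_left h6 hn3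
  have h8 : H * q ≤ H * (2 * ((q : ℝ) - 15)) := mul_le_mul_of_nonneg_left (by linarith) hH0
  linarith

theorem st_split (n t K : ℕ) : (FV n t).card = (lowF n t K).card + (highF n t K).card := by
  classical
  have h := Finset.card_filter_add_card_filter_not (s := FV n t)
    (fun F => ∑ T ∈ trs n, (CF F T).card ≤ K * n.choose 3)
  rw [← h]
  congr 1
  unfold highF
  congr 1
  ext F
  simp only [Finset.mem_filter, not_le]

/- ===== M11  Step.lean (uses M7, M10) ===== -/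
theorem step (t : ℕ) : ∃ Q : ℕ, ∀ n q : ℕ, Q ≤ q → q ^ 4 ≤ n → n < (q + 1) ^ 4 →
    q * (FV n t).card ≤ 500 * (t + 1) * (FV n (t + 1)).card := by
  refine ⟨480 * 53 ^ 10 + 5000 * t + 100, fun n q hq hqn _ => ?_⟩
  have h1 := st_low hq hqn
  have h2 := st_high hq hqn
  have h3 := st_split n t q
  have h3' : ((FV n t).card : ℝ) = (lowF n t q).card + (highF n t q).card := by exact_mod_cast h3
  have h4 : (q : ℝ) * (FV n t).card ≤ 500 * (t + 1) * (FV n (t + 1)).card := by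
    rw [h3']
    have : (0 : ℝ) ≤ ((t : ℝ) + 1) * (FV n (t + 1)).card := by positivity
    nlinarith
  exact_mod_cast h4

end Pool.Agent.C4H6
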