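import Pool.Agent.C4H6.Defs

/-!
MP_039b14_co, corank four: the switch stays in the class.
-/

set_option autoImplicit false

namespace Pool.Agent.C4H6

open Finset Pool.Agent.R4P

variable {n : ℕ}

theorem self_mem_sw (F : Finset (Finset (Fin n))) (Z : Finset (Fin n)) : Z ∈ sw F Z :=
  mem_insert_self _ _

theorem sw_mem {t : ℕ} (hn : 6 ≤ n) {F : Finset (Finset (Fin n))} (hF : F ∈ FV n t)
    {Z : Finset (Fin n)} (hZ : Good F Z) : sw F Z ∈ FV n (t + 1) := by
  classical
  obtain ⟨hZ5, hZg⟩ := hZ
  simp only [FV, fams, mem_filter, mem_univ, true_and] at hF ⊢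
  obtain ⟨⟨hF1, hF2⟩, hF3, hF4⟩ := hF
  have hZF : Z ∉ F := by
    intro h
    have := hZg Z h hZ5
    rw [inter_self] at this
    omega
  refine ⟨⟨fun H hH => ?_, fun H hH K hK hne => ?_⟩, fun R hR => ?_, ?_⟩
  · rcases mem_insert.1 hH with rfl | hH
    · omega
    · exact hF1 H (mem_filter.1 hH).1
  · rcases mem_insert.1 hH with h1 | h1
    · rcases mem_insert.1 hK with h2 | h2
      · exact absurd (h1.trans h2.symm) hne
      · rw [h1, inter_comm]
        exact (mem_filter.1 h2).2
    · rcases mem_insert.1 hK with h2 | h2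
      · rw [h2]
        exact (mem_filter.1 h1).2
      · exact hF2 H (mem_filter.1 h1).1 K (mem_filter.1 h2).1 hne
  · rcases mem_insert.1 hR with rfl | hR
    · exact Or.inr hZ5
    · exact hF3 R (mem_filter.1 hR).1
  · have h5 : (sw F Z).filter (fun R => R.card = 5) = insert Z (F.filter (fun R => R.card = 5)) := by
      ext R
      simp only [sw, mem_filter, mem_insert]
      constructor
      · rintro ⟨h | h, h'⟩
        · exact Or.inl h
        · exact Or.inr ⟨h.1, h'⟩
      · rintro (h | h)
        · exact ⟨Or.inl h, by rw [h]; exact hZ5⟩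
        · exact ⟨Or.inr ⟨h.1, hZg R h.1 h.2⟩, h.2⟩
    have h6 : Z ∉ F.filter (fun R => R.card = 5) := fun h => hZF (mem_filter.1 h).1
    have h7 := card_insert_of_notMem h6
    rw [← h5, hF4] at h7
    convert h7 using 1

end Pool.Agent.C4H6
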